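import Pool.Agent.Helper684.Koop.Defs

/-!
Action of the Grigorchuk group on finite words, and sections.
-/

open MeasureTheory

namespace Pool.Agent.Helper684.Koop

/-- The infinite word `v w`. -/
def app : List Bool → Bd → Bd
  | [], w => w
  | x :: v, w => cons x (app v w)

@[simp] theorem app_nil (w : Bd) : app [] w = w := rfl
@[simp] theorem app_cons (x : Bool) (v : List Bool) (w : Bd) :
    app (x :: v) w = cons x (app v w) := rfl

theorem cons_inj {x y : Bool} {w z : Bd} (h : cons x w = cons y z) : x = y ∧ w = z := by
  refine ⟨congrFun h 0, ?_⟩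
  funext n
  exact congrFun h (n + 1)

theorem app_append (u v : List Bool) (w : Bd) : app (u ++ v) w = app u (app v w) := by
  induction u with
  | nil => rfl
  | cons x u ih => simp [ih]

theorem app_inj : ∀ {u v : List Bool} {w z : Bd}, u.length = v.length → app u w = app v z →
    u = v ∧ w = z
  | [], [], _, _, _, h => ⟨rfl, h⟩
  | x :: u, y :: v, w, z, hl, h => by
    obtain ⟨h1, h2⟩ := cons_inj h
    obtain ⟨h3, h4⟩ := app_inj (by simpa using hl) h2
    exact ⟨by rw [h1, h3], h4⟩

/-- Every infinite word starts with a word of each length. -/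
theorem exists_app (n : ℕ) (w : Bd) : ∃ v : List Bool, v.length = n ∧ ∃ z, w = app v z := by
  induction n generalizing w with
  | zero => exact ⟨[], rfl, w, rfl⟩
  | succ n ih =>
    obtain ⟨v, hv, z, hz⟩ := ih (tail w)
    refine ⟨w 0 :: v, by simp [hv], z, ?_⟩
    rw [app_cons, ← hz, cons_tail]

theorem a_cons (x : Bool) (w : Bd) : a (cons x w) = cons (!x) w := aFun_cons x w
theorem b_false (w : Bd) : b (cons false w) = cons false (a w) := bCo_false w
theorem b_true (w : Bd) : b (cons true w) = cons true (c w) := bCo_true w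
theorem c_false (w : Bd) : c (cons false w) = cons false (a w) := cCo_false w
theorem c_true (w : Bd) : c (cons true w) = cons true (d w) := cCo_true w
theorem d_false (w : Bd) : d (cons false w) = cons false w := dCo_false w
theorem d_true (w : Bd) : d (cons true w) = cons true (b w) := dCo_true w

theorem a_mem : a ∈ G := Subgroup.subset_closure (by simp)
theorem b_mem : b ∈ G := Subgroup.subset_closure (by simp)
theorem c_mem : c ∈ G := Subgroup.subset_closure (by simp)
theorem d_mem : d ∈ G := Subgroup.subset_closure (by simp)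

theorem exists_act_one {g : Equiv.Perm Bd} (hg : g ∈ G) :
    ∀ x : Bool, ∃ y : Bool, ∃ h ∈ G, ∀ w, g (cons x w) = cons y (h w) := by
  induction hg using Subgroup.closure_induction with
  | mem g hg =>
    simp only [Set.mem_insert_iff, Set.mem_singleton_iff] at hg
    rcases hg with rfl | rfl | rfl | rfl
    · exact fun x => ⟨!x, 1, G.one_mem, fun w => a_cons x w⟩
    · rintro (_ | _)
      · exact ⟨false, a, a_mem, b_false⟩
      · exact ⟨true, c, c_mem, b_true⟩
    · rintro (_ | _)
      · exact ⟨false, a, a_mem, c_false⟩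
      · exact ⟨true, d, d_mem, c_true⟩
    · rintro (_ | _)
      · exact ⟨false, 1, G.one_mem, d_false⟩
      · exact ⟨true, b, b_mem, d_true⟩
  | one => exact fun x => ⟨x, 1, G.one_mem, fun w => rfl⟩
  | mul g h _ _ ihg ihh =>
    intro x
    obtain ⟨y, k, hk, hy⟩ := ihh x
    obtain ⟨z, l, hl, hz⟩ := ihg y
    exact ⟨z, l * k, G.mul_mem hl hk, fun w => by
      rw [Equiv.Perm.mul_apply, hy, hz]; rfl⟩
  | inv g _ ih =>
    intro x
    obtain ⟨y0, h0, hh0, e0⟩ := ih false
    obtain ⟨y1, h1, hh1, e1⟩ := ih true
    have key : ∀ (z : Bool) (y : Bool) (h : Equiv.Perm Bd), h ∈ G →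
        (∀ w, g (cons z w) = cons y (h w)) → y = x →
        ∃ y : Bool, ∃ h ∈ G, ∀ w, g⁻¹ (cons x w) = cons y (h w) := by
      intro z y h hh e hy
      refine ⟨z, h⁻¹, G.inv_mem hh, fun w => ?_⟩
      rw [Equiv.Perm.inv_eq_iff_eq, e, hy]
      exact congrArg (cons x) (Equiv.apply_symm_apply h w).symm
    by_cases hy0 : y0 = x
    · exact key false y0 h0 hh0 e0 hy0
    · by_cases hy1 : y1 = x
      · exact key true y1 h1 hh1 e1 hy1
      · exfalso
        have h01 : ∀ w, (g w) 0 ≠ x := by
          intro w
          rw [← cons_tail w]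
          rcases w 0 with _ | _
          · rw [e0]; exact hy0
          · rw [e1]; exact hy1
        exact h01 (g⁻¹ (cons x (fun _ => false)))
          (congrFun (Equiv.apply_symm_apply g (cons x (fun _ => false))) 0)

theorem exists_act (v : List Bool) : ∀ g : G, ∃ u : List Bool, ∃ h : G, u.length = v.length ∧
    ∀ w, (g : Equiv.Perm Bd) (app v w) = app u ((h : Equiv.Perm Bd) w) := by
  induction v with
  | nil => exact fun g => ⟨[], g, rfl, fun w => rfl⟩
  | cons x v ih =>
    intro g
    obtain ⟨y, k, hk, hy⟩ := exists_act_one g.2 x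
    obtain ⟨u, h, hu, hh⟩ := ih ⟨k, hk⟩
    refine ⟨y :: u, h, by simp [hu], fun w => ?_⟩
    rw [app_cons, hy, app_cons, ← hh]

/-- The image of the finite word `v` under `g`. -/
noncomputable def act (g : G) (v : List Bool) : List Bool := (exists_act v g).choose

/-- The section of `g` at the finite word `v`. -/
noncomputable def sec (g : G) (v : List Bool) : G := (exists_act v g).choose_spec.choose

@[simp] theorem act_length (g : G) (v : List Bool) : (act g v).length = v.length :=
  (exists_act v g).choose_spec.choose_spec.1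

theorem act_spec (g : G) (v : List Bool) (w : Bd) :
    (g : Equiv.Perm Bd) (app v w) = app (act g v) ((sec g v : Equiv.Perm Bd) w) :=
  (exists_act v g).choose_spec.choose_spec.2 w

theorem act_unique {g : G} {v u : List Bool} {h : G} (hu : u.length = v.length)
    (H : ∀ w, (g : Equiv.Perm Bd) (app v w) = app u ((h : Equiv.Perm Bd) w)) :
    act g v = u ∧ sec g v = h := by
  have h1 : ∀ w, act g v = u ∧ (sec g v : Equiv.Perm Bd) w = (h : Equiv.Perm Bd) w := fun w =>
    app_inj (by rw [act_length, hu]) (by rw [← act_spec, H])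
  refine ⟨(h1 (fun _ => false)).1, ?_⟩
  apply Subtype.ext
  apply Equiv.ext
  exact fun w => (h1 w).2

@[simp] theorem act_nil (g : G) : act g [] = [] := (act_unique (g := g) (h := g) rfl (fun _ => rfl)).1
@[simp] theorem sec_nil (g : G) : sec g [] = g := (act_unique (g := g) (u := []) (h := g) rfl (fun _ => rfl)).2

@[simp] theorem act_one (v : List Bool) : act 1 v = v :=
  (act_unique (g := 1) (v := v) (u := v) (h := 1) rfl (fun _ => rfl)).1
@[simp] theorem sec_one (v : List Bool) : sec 1 v = 1 :=
  (act_unique (g := 1) (v := v) (u := v) (h := 1) rfl (fun _ => rfl)).2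

theorem act_sec_mul (g h : G) (v : List Bool) :
    act (g * h) v = act g (act h v) ∧ sec (g * h) v = sec g (act h v) * sec h v := by
  apply act_unique (by simp)
  intro w
  rw [Subgroup.coe_mul, Equiv.Perm.mul_apply, act_spec, act_spec]
  rfl

theorem act_mul (g h : G) (v : List Bool) : act (g * h) v = act g (act h v) :=
  (act_sec_mul g h v).1
theorem sec_mul (g h : G) (v : List Bool) : sec (g * h) v = sec g (act h v) * sec h v :=
  (act_sec_mul g h v).2

@[simp] theorem act_inv_act (g : G) (v : List Bool) : act g⁻¹ (act g v) = v := by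
  rw [← act_mul]; simp
@[simp] theorem act_act_inv (g : G) (v : List Bool) : act g (act g⁻¹ v) = v := by
  rw [← act_mul]; simp

theorem act_injective (g : G) : Function.Injective (act g) :=
  Function.LeftInverse.injective (act_inv_act g)

theorem sec_inv (g : G) (v : List Bool) : sec g⁻¹ v = (sec g (act g⁻¹ v))⁻¹ := by
  have h := sec_mul g g⁻¹ v
  rw [mul_inv_cancel, sec_one] at h
  exact eq_inv_of_mul_eq_one_right h.symm

theorem act_sec_append (g : G) (u v : List Bool) :
    act g (u ++ v) = act g u ++ act (sec g u) v ∧ sec g (u ++ v) = sec (sec g u) v := by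
  apply act_unique (by simp)
  intro w
  rw [app_append, act_spec, act_spec, app_append]

theorem act_append (g : G) (u v : List Bool) :
    act g (u ++ v) = act g u ++ act (sec g u) v := (act_sec_append g u v).1
theorem sec_append (g : G) (u v : List Bool) :
    sec g (u ++ v) = sec (sec g u) v := (act_sec_append g u v).2

end Pool.Agent.Helper684.Koop
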