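import Pool.Agent.Helper684.Koop.Act

/-!
Cylinder sets of the boundary and invariance of the Bernoulli measure.
-/

open MeasureTheory

namespace Pool.Agent.Helper684.Koop

/-- The set of infinite words starting with `v`. -/
def cyl (v : List Bool) : Set Bd := Set.range (app v)

theorem cyl_nil : cyl [] = Set.univ := by
  ext w; simp [cyl]

theorem app_get (v : List Bool) (z : Bd) : ∀ (i : ℕ) (hi : i < v.length), app v z i = v[i] := by
  induction v with
  | nil => intro i hi; simp at hi
  | cons x v ih =>
    intro i hi
    cases i with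
    | zero => rfl
    | succ i =>
      have := ih i (by simpa using hi)
      rw [List.getElem_cons_succ, ← this]
      rfl

theorem app_get_ge (v : List Bool) (z : Bd) : ∀ i : ℕ, app v z (v.length + i) = z i := by
  induction v with
  | nil => intro i; simp
  | cons x v ih =>
    intro i
    have : (x :: v).length + i = (v.length + i) + 1 := by simp; omega
    rw [this]
    exact ih i

theorem mem_cyl {v : List Bool} {w : Bd} :
    w ∈ cyl v ↔ ∀ (i : ℕ) (hi : i < v.length), w i = v[i] := by
  constructor
  · rintro ⟨z, rfl⟩ i hi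
    exact app_get v z i hi
  · intro h
    refine ⟨fun n => w (v.length + n), ?_⟩
    funext i
    by_cases hi : i < v.length
    · rw [app_get v _ i hi, h i hi]
    · obtain ⟨j, rfl⟩ : ∃ j, i = v.length + j := ⟨i - v.length, by omega⟩
      rw [app_get_ge]

theorem cyl_eq_pi (v : List Bool) : cyl v =
    Set.pi (Finset.range v.length : Set ℕ) (fun i => {x : Bool | v[i]? = some x}) := by
  ext w
  rw [mem_cyl]
  simp only [Finset.coe_range, Set.mem_pi, Set.mem_Iio, Set.mem_ofPred_eq]
  constructor
  · intro h i hi
    rw [List.getElem?_eq_getElem hi, h i hi]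
  · intro h i hi
    have := h i hi
    rw [List.getElem?_eq_getElem hi] at this
    exact (Option.some.inj this).symm

theorem unif_singleton (x : Bool) :
    (PMF.uniformOfFintype Bool).toMeasure {x} = 2⁻¹ := by
  rw [PMF.toMeasure_apply_singleton _ _ (measurableSet_singleton x)]
  simp

theorem mu_cyl (v : List Bool) : mu (cyl v) = (2⁻¹ : ENNReal) ^ v.length := by
  rw [cyl_eq_pi, mu, Measure.infinitePi_pi]
  · rw [Finset.prod_congr rfl (g := fun _ => (2⁻¹ : ENNReal))]
    · simp
    · intro i hi
      have hi' : i < v.length := by simpa using hi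
      have : {x : Bool | v[i]? = some x} = {v[i]} := by
        ext x
        simp [List.getElem?_eq_getElem hi', eq_comm]
      rw [this, unif_singleton]
  · intro i _
    exact MeasurableSet.of_discrete

theorem measurableSet_cyl (v : List Bool) : MeasurableSet (cyl v) := by
  rw [cyl_eq_pi]
  exact MeasurableSet.pi (Set.to_countable _) (fun i _ => MeasurableSet.of_discrete)

theorem cyl_append_subset (u v : List Bool) : cyl (u ++ v) ⊆ cyl u := by
  rintro w ⟨z, rfl⟩
  exact ⟨app v z, (app_append u v z).symm⟩

theorem isPiSystem_cyl : IsPiSystem (Set.range cyl) := by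
  have key : ∀ u v : List Bool, u.length ≤ v.length → (cyl u ∩ cyl v).Nonempty →
      cyl u ∩ cyl v = cyl v := by
    rintro u v huv ⟨w, ⟨z, hz⟩, ⟨z', hz'⟩⟩
    have hv : v = v.take u.length ++ v.drop u.length := (List.take_append_drop _ _).symm
    have h1 : app u z = app (v.take u.length) (app (v.drop u.length) z') := by
      rw [← app_append, ← hv, hz, hz']
    obtain ⟨h2, -⟩ := app_inj (by simp [huv]) h1
    apply Set.inter_eq_right.2
    rw [hv]
    conv_rhs => rw [h2]
    exact cyl_append_subset _ _
  rintro _ ⟨u, rfl⟩ _ ⟨v, rfl⟩ h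
  rcases le_total u.length v.length with h1 | h1
  · exact ⟨v, (key u v h1 h).symm⟩
  · rw [Set.inter_comm] at h ⊢
    exact ⟨u, (key v u h1 h).symm⟩

theorem generateFrom_cyl :
    (MeasurableSpace.pi : MeasurableSpace Bd) = MeasurableSpace.generateFrom (Set.range cyl) := by
  apply le_antisymm
  · apply iSup_le
    intro n
    rw [← measurable_iff_comap_le]
    refine @measurable_to_countable' Bool Bd _ _ (MeasurableSpace.generateFrom (Set.range cyl)) _
      (fun x => ?_)
    have : (fun w : Bd => w n) ⁻¹' {x} =
        ⋃ v ∈ {v : List Bool | v.length = n + 1 ∧ v[n]? = some x}, cyl v := by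
      ext w
      simp only [Set.mem_preimage, Set.mem_singleton_iff, Set.mem_ofPred_eq, Set.mem_iUnion,
        exists_prop]
      constructor
      · intro h
        obtain ⟨v, hv, z, hz⟩ := exists_app (n + 1) w
        refine ⟨v, ⟨hv, ?_⟩, z, hz.symm⟩
        rw [List.getElem?_eq_getElem (by omega), ← app_get v z n (by omega), ← hz, h]
      · rintro ⟨v, ⟨hv, hx⟩, z, rfl⟩
        rw [List.getElem?_eq_getElem (by omega)] at hx
        rw [app_get v z n (by omega)]
        exact Option.some.inj hx
    rw [this]
    exact MeasurableSet.biUnion (Set.to_countable _)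
      (fun v _ => MeasurableSpace.measurableSet_generateFrom ⟨v, rfl⟩)
  · apply MeasurableSpace.generateFrom_le
    rintro _ ⟨v, rfl⟩
    exact measurableSet_cyl v

theorem ext_cyl {μ ν : Measure Bd} [IsFiniteMeasure μ] (h : ∀ v, μ (cyl v) = ν (cyl v)) :
    μ = ν := by
  apply ext_of_generate_finite (Set.range cyl) generateFrom_cyl isPiSystem_cyl
  · rintro _ ⟨v, rfl⟩
    exact h v
  · rw [← cyl_nil]; exact h []

theorem measurable_of_cyl {g : Bd → Bd} (h : ∀ v, MeasurableSet (g ⁻¹' cyl v)) :
    Measurable g := by
  have := @measurable_generateFrom Bd Bd _ (Set.range cyl) g (by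
    rintro _ ⟨v, rfl⟩
    exact h v)
  rwa [← generateFrom_cyl] at this

theorem preimage_cyl (g : G) (v : List Bool) :
    (g : Equiv.Perm Bd) ⁻¹' (cyl v) = cyl (act g⁻¹ v) := by
  ext w
  constructor
  · rintro ⟨z, hz⟩
    refine ⟨(sec g⁻¹ v : Equiv.Perm Bd) z, ?_⟩
    rw [← act_spec, hz]
    exact Equiv.symm_apply_apply (g : Equiv.Perm Bd) w
  · rintro ⟨z, rfl⟩
    refine ⟨(sec g (act g⁻¹ v) : Equiv.Perm Bd) z, ?_⟩
    rw [act_spec, act_act_inv]

theorem measurePreserving_G (g : G) : MeasurePreserving (g : Equiv.Perm Bd) mu mu := by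
  have hm : Measurable (g : Equiv.Perm Bd) := measurable_of_cyl (fun v => by
    rw [preimage_cyl]; exact measurableSet_cyl _)
  refine ⟨hm, ?_⟩
  have : IsFiniteMeasure (Measure.map (g : Equiv.Perm Bd) mu) :=
    Measure.isFiniteMeasure_map mu _
  apply ext_cyl
  intro v
  rw [Measure.map_apply hm (measurableSet_cyl v), preimage_cyl, mu_cyl, mu_cyl, act_length]

/-- The Hilbert space of square integrable functions on the boundary. -/
abbrev L2 : Type := Lp ℂ 2 mu

/-- The Koopman representation: `(ρ(g) f)(x) = f(g⁻¹ x)`. -/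
noncomputable def rho : G →* (L2 →L[ℂ] L2) where
  toFun g := (Lp.compMeasurePreservingₗᵢ ℂ (((g⁻¹ : G) : Equiv.Perm Bd) : Bd → Bd)
    (measurePreserving_G g⁻¹)).toContinuousLinearMap
  map_one' := by
    ext1 f
    apply Lp.ext
    refine (Lp.coeFn_compMeasurePreserving f (measurePreserving_G (1 : G)⁻¹)).trans ?_
    exact Filter.Eventually.of_forall (fun w => by simp)
  map_mul' g h := by
    ext1 f
    apply Lp.ext
    refine (Lp.coeFn_compMeasurePreserving f (measurePreserving_G (g * h)⁻¹)).trans ?_
    symm
    refine (Lp.coeFn_compMeasurePreserving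
      (Lp.compMeasurePreserving _ (measurePreserving_G h⁻¹) f) (measurePreserving_G g⁻¹)).trans ?_
    have h1 := (measurePreserving_G g⁻¹).quasiMeasurePreserving.ae_eq_comp
      (Lp.coeFn_compMeasurePreserving f (measurePreserving_G h⁻¹))
    refine h1.trans ?_
    exact Filter.Eventually.of_forall (fun w => by simp [mul_inv_rev])

/-- The C*-algebra of the Koopman representation: the norm closure of the image of the
group algebra in the bounded operators on `L²`. -/
noncomputable def CStarRho : Subalgebra ℂ (L2 →L[ℂ] L2) :=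
  ((MonoidAlgebra.lift ℂ (L2 →L[ℂ] L2) G rho).range).topologicalClosure

end Pool.Agent.Helper684.Koop
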