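import Mathlib

/-!
The Grigorchuk group acting on the boundary of the rooted binary tree and its Koopman
representation: definitions.
-/

open MeasureTheory

namespace Pool.Agent.Helper684.Koop

/-- The boundary of the rooted binary tree: infinite binary words, where `false` is the
letter 0 and `true` is the letter 1. -/
abbrev Bd : Type := ℕ → Bool

/-- The infinite word `x w`. -/
def cons (x : Bool) (w : Bd) : Bd
  | 0 => x
  | n + 1 => w n

/-- The infinite word `w` with its first letter removed. -/
def tail (w : Bd) : Bd := fun n => w (n + 1)

/-- The map `a`: `a(0w) = 1w`, `a(1w) = 0w`. -/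
def aFun (w : Bd) : Bd := cons (!(w 0)) (tail w)

mutual
/-- The letters of `b(w)`, where `b(0w) = 0 a(w)`, `b(1w) = 1 c(w)`. -/
def bCo (w : Bd) : ℕ → Bool
  | 0 => w 0
  | n + 1 => if w 0 = false then aFun (tail w) n else cCo (tail w) n
/-- The letters of `c(w)`, where `c(0w) = 0 a(w)`, `c(1w) = 1 d(w)`. -/
def cCo (w : Bd) : ℕ → Bool
  | 0 => w 0
  | n + 1 => if w 0 = false then aFun (tail w) n else dCo (tail w) n
/-- The letters of `d(w)`, where `d(0w) = 0 w`, `d(1w) = 1 b(w)`. -/
def dCo (w : Bd) : ℕ → Bool
  | 0 => w 0
  | n + 1 => if w 0 = false then (tail w) n else bCo (tail w) n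
end

theorem cons_tail (w : Bd) : cons (w 0) (tail w) = w := by
  funext n; cases n <;> rfl

theorem aFun_cons (x : Bool) (w : Bd) : aFun (cons x w) = cons (!x) w := by
  funext n; cases n <;> rfl

theorem bCo_false (w : Bd) : bCo (cons false w) = cons false (aFun w) := by
  funext n
  cases n with
  | zero => simp [bCo, cons]
  | succ n => simp [bCo, cons]; rfl

theorem bCo_true (w : Bd) : bCo (cons true w) = cons true (cCo w) := by
  funext n
  cases n with
  | zero => simp [bCo, cons]
  | succ n => simp [bCo, cons]; rfl

theorem cCo_false (w : Bd) : cCo (cons false w) = cons false (aFun w) := by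
  funext n
  cases n with
  | zero => simp [cCo, cons]
  | succ n => simp [cCo, cons]; rfl

theorem cCo_true (w : Bd) : cCo (cons true w) = cons true (dCo w) := by
  funext n
  cases n with
  | zero => simp [cCo, cons]
  | succ n => simp [cCo, cons]; rfl

theorem dCo_false (w : Bd) : dCo (cons false w) = cons false w := by
  funext n
  cases n with
  | zero => simp [dCo, cons]
  | succ n => simp [dCo, cons]; rfl

theorem dCo_true (w : Bd) : dCo (cons true w) = cons true (bCo w) := by
  funext n
  cases n with
  | zero => simp [dCo, cons]
  | succ n => simp [dCo, cons]; rfl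

theorem aFun_invol : Function.Involutive aFun := by
  intro w
  conv_lhs => rw [← cons_tail w]
  rw [aFun_cons, aFun_cons, Bool.not_not, cons_tail]

theorem bcd_invol_aux (n : ℕ) : ∀ w : Bd, bCo (bCo w) n = w n ∧ cCo (cCo w) n = w n ∧
    dCo (dCo w) n = w n := by
  induction n with
  | zero =>
    intro w
    refine ⟨?_, ?_, ?_⟩ <;> simp [bCo, cCo, dCo]
  | succ n ih =>
    intro w
    rw [← cons_tail w]
    rcases w 0 with _ | _
    · rw [bCo_false, bCo_false, cCo_false, cCo_false, dCo_false, dCo_false, aFun_invol]
      exact ⟨rfl, rfl, rfl⟩
    · rw [bCo_true, bCo_true, cCo_true, cCo_true, dCo_true, dCo_true]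
      exact ⟨(ih (tail w)).2.1, (ih (tail w)).2.2, (ih (tail w)).1⟩

theorem bCo_invol : Function.Involutive bCo := fun w => funext fun n => (bcd_invol_aux n w).1
theorem cCo_invol : Function.Involutive cCo := fun w => funext fun n => (bcd_invol_aux n w).2.1
theorem dCo_invol : Function.Involutive dCo := fun w => funext fun n => (bcd_invol_aux n w).2.2

/-- The generator `a` of the Grigorchuk group, as a bijection of the boundary. -/
def a : Equiv.Perm Bd := aFun_invol.toPerm
/-- The generator `b` of the Grigorchuk group, as a bijection of the boundary. -/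
def b : Equiv.Perm Bd := bCo_invol.toPerm
/-- The generator `c` of the Grigorchuk group, as a bijection of the boundary. -/
def c : Equiv.Perm Bd := cCo_invol.toPerm
/-- The generator `d` of the Grigorchuk group, as a bijection of the boundary. -/
def d : Equiv.Perm Bd := dCo_invol.toPerm

/-- The Grigorchuk group, as a group of bijections of the boundary. -/
def G : Subgroup (Equiv.Perm Bd) := Subgroup.closure {a, b, c, d}

/-- The uniform Bernoulli measure on the boundary: the infinite product of the uniform
probability measures on `Bool`. -/
noncomputable def mu : Measure Bd :=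
  Measure.infinitePi (fun _ : ℕ => (PMF.uniformOfFintype Bool).toMeasure)

instance : IsProbabilityMeasure mu := by unfold mu; infer_instance

end Pool.Agent.Helper684.Koop
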