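import Pool.Agent.Helper684.Koop.Fin

/-!
Every quotient of the Koopman C*-algebra of the Grigorchuk group by a nonzero closed two-sided
ideal is finite dimensional: conclusion.
-/

open MeasureTheory ContinuousLinearMap

namespace Pool.Agent.Helper684.Koop

variable {S : Bool → (L2 →L[ℂ] L2)}

/-- All corner elements built from `(ab)²` are in the ideal. -/
theorem corner_kk (hS : Cuntz S) {I : Ideal CStarRho} [I.IsTwoSided] {n : ℕ}
    (H : ∀ w : List Bool, w.length = n → InI I (Sw S w * QQ * adjoint (Sw S w)))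
    {u w : List Bool} (hu : u.length = n) (hw : w.length = n) (r m : G) :
    InI I (Sw S w * (rho r * (1 - rho kk) * rho m) * adjoint (Sw S u)) := by
  have h0 : InI I (Sw S w * (1 - rho kk) * adjoint (Sw S w)) := by
    have h1 := (H w hw).mul_left (corner_mem hS (u := w) (w := w) rfl 1 k0_memK)
    have h2 : Sw S w * (rho 1 * (1 - rho ⟨k0, K_le k0_memK⟩)) * adjoint (Sw S w) *
        (Sw S w * QQ * adjoint (Sw S w)) = Sw S w * (1 - rho kk) * adjoint (Sw S w) := by
      calc _ = Sw S w * ((1 - rho kk) * (adjoint (Sw S w) * Sw S w) * QQ) *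
          adjoint (Sw S w) := by
            rw [map_one, one_mul]
            simp only [mul_assoc]
            rfl
        _ = _ := by rw [Sw_iso hS, mul_one, kk_QQ]
    rwa [h2] at h1
  obtain ⟨p, hp1, hp2⟩ := exists_sec w w rfl r
  obtain ⟨q, hq1, hq2⟩ := exists_sec w u (by rw [hw, hu]) m⁻¹
  have h3 := (h0.mul_left (rho_mem p)).mul_right (rho_mem q⁻¹)
  have h4 : rho p * Sw S w = Sw S w * rho r := by rw [rho_mul_Sw hS, hp1, hp2]
  have h5 : adjoint (Sw S w) * rho q⁻¹ = rho m * adjoint (Sw S u) := by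
    rw [adj_Sw_mul_rho hS, inv_inv, hq1, hq2, inv_inv]
  have h6 : rho p * (Sw S w * (1 - rho kk) * adjoint (Sw S w)) * rho q⁻¹ =
      Sw S w * (rho r * (1 - rho kk) * rho m) * adjoint (Sw S u) := by
    calc _ = (rho p * Sw S w) * (1 - rho kk) * (adjoint (Sw S w) * rho q⁻¹) := by
          simp only [mul_assoc]
      _ = _ := by rw [h4, h5]; simp only [mul_assoc]
  rwa [h6] at h3

/-- The group elements all of whose corner elements at level `n` are in the ideal. -/
def KI (S : Bool → (L2 →L[ℂ] L2)) (I : Ideal CStarRho) [I.IsTwoSided] (n : ℕ) : Subgroup G where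
  carrier := {k | ∀ u w : List Bool, u.length = n → w.length = n → ∀ r m : G,
    InI I (Sw S w * (rho r * (1 - rho k) * rho m) * adjoint (Sw S u))}
  one_mem' := by
    intro u w _ _ r m
    rw [map_one, sub_self, mul_zero, zero_mul, mul_zero, zero_mul]
    exact InI.zero I
  mul_mem' := by
    intro k l hk hl u w hu hw r m
    have h : Sw S w * (rho r * (1 - rho (k * l)) * rho m) * adjoint (Sw S u) =
        Sw S w * (rho r * (1 - rho k) * rho m) * adjoint (Sw S u) +
        Sw S w * (rho (r * k) * (1 - rho l) * rho m) * adjoint (Sw S u) := by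
      rw [map_mul, map_mul]
      simp only [mul_sub, sub_mul, mul_one, mul_assoc]
      abel
    rw [h]
    exact (hk u w hu hw r m).add (hl u w hu hw (r * k) m)
  inv_mem' := by
    intro k hk u w hu hw r m
    have h : Sw S w * (rho r * (1 - rho k⁻¹) * rho m) * adjoint (Sw S u) =
        -(Sw S w * (rho (r * k⁻¹) * (1 - rho k) * rho m) * adjoint (Sw S u)) := by
      have h1 : rho k⁻¹ * rho k = 1 := by rw [← map_mul, inv_mul_cancel, map_one]
      have h2 : rho (r * k⁻¹) * (1 - rho k) = -(rho r * (1 - rho k⁻¹)) := by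
        rw [map_mul, mul_sub, mul_one, mul_assoc, h1]
        rw [mul_sub, mul_one]
        abel
      rw [h2]
      simp
    rw [h]
    exact (hk u w hu hw (r * k⁻¹) m).neg

instance KI_normal (S : Bool → (L2 →L[ℂ] L2)) (I : Ideal CStarRho) [I.IsTwoSided] (n : ℕ) :
    (KI S I n).Normal := by
  constructor
  intro k hk g u w hu hw r m
  have h : Sw S w * (rho r * (1 - rho (g * k * g⁻¹)) * rho m) * adjoint (Sw S u) =
      Sw S w * (rho (r * g) * (1 - rho k) * rho (g⁻¹ * m)) * adjoint (Sw S u) := by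
    have h1 : rho g * rho g⁻¹ = 1 := by rw [← map_mul, mul_inv_cancel, map_one]
    have h2 : rho r * (1 - rho (g * k * g⁻¹)) * rho m =
        rho (r * g) * (1 - rho k) * rho (g⁻¹ * m) := by
      rw [map_mul, map_mul, map_mul, map_mul]
      calc rho r * (1 - rho g * rho k * rho g⁻¹) * rho m =
          rho r * (rho g * rho g⁻¹ - rho g * rho k * rho g⁻¹) * rho m := by rw [h1]
        _ = _ := by simp only [mul_sub, sub_mul, mul_one, mul_assoc]
    rw [h2]
  rw [h]
  exact hk u w hu hw (r * g) (g⁻¹ * m)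

/-- Group elements with the same action at level `n` and the same sections modulo `KI` are
congruent modulo the ideal. -/
theorem congr_mod (hS : Cuntz S) {I : Ideal CStarRho} [I.IsTwoSided] {n : ℕ} {g g' : G}
    (h1 : ∀ v ∈ lev n, act g v = act g' v)
    (h2 : ∀ v ∈ lev n, (sec g v)⁻¹ * sec g' v ∈ KI S I n) : InI I (rho g - rho g') := by
  have h : rho g - rho g' = ∑ v ∈ lev n, Sw S (act g v) *
      (rho (sec g v) * (1 - rho ((sec g v)⁻¹ * sec g' v)) * rho 1) * adjoint (Sw S v) := by
    calc rho g - rho g' = (rho g - rho g') * PW S (lev n) := by rw [PW_lev hS, mul_one]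
      _ = ∑ v ∈ lev n, (rho g - rho g') * Pw S v := by unfold PW; rw [Finset.mul_sum]
      _ = _ := by
        refine Finset.sum_congr rfl fun v hv => ?_
        unfold Pw
        rw [← mul_assoc, sub_mul, rho_mul_Sw hS, rho_mul_Sw hS, ← h1 v hv, ← mul_sub]
        congr 2
        rw [mul_sub, mul_one, ← map_mul, map_one, mul_one, mul_inv_cancel_left]
  rw [h]
  apply InI.sum
  intro v hv
  exact h2 v hv v (act g v) (mem_lev.1 hv) (by rw [act_length]; exact mem_lev.1 hv) (sec g v) 1

/-- The main theorem in abstract form. -/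
theorem finiteDimensional_quotient (I : Ideal CStarRho) [I.IsTwoSided]
    (hI : IsClosed (I : Set CStarRho)) (hne : I ≠ ⊥) : FiniteDimensional ℂ (CStarRho ⧸ I) := by
  classical
  obtain ⟨S, hS⟩ := exists_cuntz
  obtain ⟨n, H⟩ := exists_level hS I hI hne
  have hkk : kk ∈ KI S I n := fun u w hu hw r m => corner_kk hS H hu hw r m
  have hfin : Finite (G ⧸ KI S I n) := finite_quotient (KI S I n) hkk
  let f : G → CStarRho ⧸ I := fun g => Submodule.Quotient.mk (⟨rho g, rho_mem g⟩ : CStarRho)
  let Φ : G → ({v // v ∈ lev n} → {v // v ∈ lev n}) × ({v // v ∈ lev n} → G ⧸ KI S I n) :=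
    fun g => (fun v => ⟨act g v.1, by
      rw [mem_lev, act_length]; exact mem_lev.1 v.2⟩, fun v => QuotientGroup.mk (sec g v.1))
  have hΦ : ∀ g g' : G, Φ g = Φ g' → f g = f g' := by
    intro g g' h
    have h1 : ∀ v ∈ lev n, act g v = act g' v := fun v hv =>
      congrArg Subtype.val (congrFun (congrArg Prod.fst h) ⟨v, hv⟩)
    have h2 : ∀ v ∈ lev n, (sec g v)⁻¹ * sec g' v ∈ KI S I n := fun v hv =>
      QuotientGroup.eq.1 (congrFun (congrArg Prod.snd h) ⟨v, hv⟩)
    obtain ⟨hm, hmem⟩ := congr_mod hS h1 h2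
    exact (Submodule.Quotient.eq I).2 hmem
  have hrange : (Set.range f).Finite := by
    have h1 : (Set.range Φ).Finite := Set.toFinite _
    have h2 : ∀ y : Set.range Φ, ∃ g : G, Φ g = y.1 := fun y => y.2
    choose s hs using h2
    refine (Set.finite_range (fun y : Set.range Φ => f (s y))).subset ?_
    rintro _ ⟨g, rfl⟩
    exact ⟨⟨Φ g, g, rfl⟩, (hΦ _ _ (hs ⟨Φ g, g, rfl⟩))⟩
  refine finiteDimensional_of_classes I hI (Set.range fun g : G => (⟨rho g, rho_mem g⟩ : CStarRho))
    ?_ ?_
  · intro x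
    rw [closure_subtype]
    refine closure_mono ?_ x.2
    rintro _ ⟨y, rfl⟩
    refine ⟨∑ g ∈ y.coeff.support, y.coeff g • (⟨rho g, rho_mem g⟩ : CStarRho), ?_, ?_⟩
    · exact Submodule.sum_mem _ (fun g _ => Submodule.smul_mem _ _
        (Submodule.subset_span ⟨g, rfl⟩))
    · show ((∑ g ∈ y.coeff.support, y.coeff g • (⟨rho g, rho_mem g⟩ : CStarRho) : CStarRho) :
        L2 →L[ℂ] L2) = MonoidAlgebra.lift ℂ (L2 →L[ℂ] L2) G rho y
      rw [lift_eq_TT]
      unfold TT
      rw [AddSubmonoidClass.coe_finsetSum]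
      rfl
  · refine hrange.subset ?_
    rintro _ ⟨_, ⟨g, rfl⟩, rfl⟩
    exact ⟨g, rfl⟩

end Pool.Agent.Helper684.Koop
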