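import Pool.Agent.Helper684.Koop.Cyl

/-!
The Hilbert space `H = L²(∂T, μ)`, the algebra `Op` of its bounded operators, the Koopman
representation of the Grigorchuk group and its C*-algebra.
-/

open MeasureTheory

namespace Pool.Agent.Helper684.KoopS

open Pool.Agent.Helper684.Koop (Bd G mu measurePreserving_G)

/-- The Hilbert space of square integrable complex functions on the boundary. -/
def H : Type := Lp ℂ 2 mu

noncomputable instance instH : NormedAddCommGroup H :=
  Lp.instNormedAddCommGroup (α := Bd) (E := ℂ) (p := 2) (μ := mu)

noncomputable instance instHN : NormedSpace ℂ H :=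
  Lp.instNormedSpace (α := Bd) (E := ℂ) (p := 2) (μ := mu)

/-- The algebra of bounded operators on `H`. -/
def Op : Type := H →L[ℂ] H

@[irreducible] noncomputable def instOp : NormedRing Op :=
  @ContinuousLinearMap.toNormedRing ℂ H _ _ _

attribute [instance] instOp

unseal instOp in
@[irreducible] noncomputable def instOpA : NormedAlgebra ℂ Op :=
  @ContinuousLinearMap.toNormedAlgebra ℂ H _ _ _

attribute [instance] instOpA

/-- The Koopman operator: `(koop g f)(x) = f(g⁻¹ x)`. -/
noncomputable def koop (g : G) : Op :=
  (Lp.compMeasurePreservingₗᵢ ℂ (((g⁻¹ : G) : Equiv.Perm Bd) : Bd → Bd)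
    (measurePreserving_G g⁻¹) : Lp ℂ 2 mu →ₗᵢ[ℂ] Lp ℂ 2 mu).toContinuousLinearMap

unseal instOp in
theorem koop_one : koop 1 = 1 := Koop.rho.map_one'

unseal instOp in
theorem koop_mul (g h : G) : koop (g * h) = koop g * koop h := Koop.rho.map_mul' g h

/-- The Koopman representation. -/
noncomputable def rho : G →* Op where
  toFun := koop
  map_one' := koop_one
  map_mul' := koop_mul

/-- The C*-algebra of the Koopman representation: the norm closure of the image of the
group algebra in the bounded operators on `H`. -/
noncomputable def CStarRho : Subalgebra ℂ Op :=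
  (MonoidAlgebra.lift ℂ Op G rho).range.topologicalClosure

end Pool.Agent.Helper684.KoopS
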