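import Mathlib

/-!
Transport of a statement about ideals along an isomorphism of normed algebras.
-/

namespace Pool.Agent.Helper684.Koop

theorem finDim_transfer {A B : Type*} [NormedRing A] [NormedAlgebra ℂ A] [NormedRing B]
    [NormedAlgebra ℂ B] (R : Subalgebra ℂ A) (R' : Subalgebra ℂ B) (e : A →ₐ[ℂ] B)
    (hec : Continuous e) (h1 : ∀ x ∈ R, e x ∈ R')
    (h2 : ∀ y ∈ R', ∃ x ∈ R, e x = y)
    (H : ∀ (I : Ideal R) [I.IsTwoSided], IsClosed (I : Set R) → I ≠ ⊥ →
      FiniteDimensional ℂ (R ⧸ I))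
    (I' : Ideal R') [I'.IsTwoSided] (hc : IsClosed (I' : Set R')) (hne : I' ≠ ⊥) :
    FiniteDimensional ℂ (R' ⧸ I') := by
  let f : R →ₐ[ℂ] R' := (e.comp R.val).codRestrict R' (fun x => h1 x.1 x.2)
  have hf : ∀ x : R, ((f x : R') : B) = e x := fun x => rfl
  have hfs : Function.Surjective f := by
    intro y
    obtain ⟨x, hx, hxy⟩ := h2 y.1 y.2
    exact ⟨⟨x, hx⟩, Subtype.ext hxy⟩
  have hfc : Continuous f := by
    refine Continuous.subtype_mk (hec.comp continuous_subtype_val) _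
  let I : Ideal R := I'.comap f
  have hI2 : I.IsTwoSided := ⟨fun {a} b ha => by
    show f (a * b) ∈ I'
    rw [map_mul]
    exact I'.mul_mem_right _ ha⟩
  have hIc : IsClosed (I : Set R) := hc.preimage hfc
  have hIne : I ≠ ⊥ := by
    intro hbot
    apply hne
    rw [eq_bot_iff]
    intro y hy
    obtain ⟨x, rfl⟩ := hfs y
    have hx : x ∈ I := hy
    rw [hbot] at hx
    have hx0 : x = 0 := hx
    rw [hx0, map_zero]
    exact Submodule.zero_mem _
  have hfin : FiniteDimensional ℂ (R ⧸ I) := H I hIc hIne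
  let g : (R ⧸ I) →ₗ[ℂ] (R' ⧸ I') :=
    Submodule.liftQ (I.restrictScalars ℂ) (((I'.restrictScalars ℂ).mkQ).comp f.toLinearMap)
      (fun x hx => LinearMap.mem_ker.2 (show (Submodule.Quotient.mk (f x) : R' ⧸ I') = 0 from
        (Submodule.Quotient.mk_eq_zero I').2 hx))
  exact Module.Finite.of_surjective g (by
    intro y
    obtain ⟨y, rfl⟩ := Submodule.Quotient.mk_surjective _ y
    obtain ⟨x, rfl⟩ := hfs y
    exact ⟨Submodule.Quotient.mk x, rfl⟩)

end Pool.Agent.Helper684.Koop
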