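import Pool.Agent.Helper684.Koop.End
import Pool.Agent.Helper684.Koop.Stmt
import Pool.Agent.Helper684.Koop.Trans

open MeasureTheory

namespace Pool.Agent.Helper684.KoopS

open Pool.Agent.Helper684.Koop (Bd G mu L2 measurePreserving_G finiteDimensional_quotient
  finDim_transfer)

unseal instOp instOpA in
/-- The identity map. -/
noncomputable def e : (L2 →L[ℂ] L2) →ₐ[ℂ] Op where
  toFun := fun x => x
  map_one' := rfl
  map_mul' := fun _ _ => rfl
  map_zero' := rfl
  map_add' := fun _ _ => rfl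
  commutes' := fun _ => rfl

unseal instOp instOpA in
theorem e_norm (x : L2 →L[ℂ] L2) : ‖e x‖ = ‖x‖ := rfl

theorem e_surj (y : Op) : ∃ x : L2 →L[ℂ] L2, e x = y := ⟨y, rfl⟩

theorem e_rho (g : G) : e (Koop.rho g) = rho g := rfl

theorem e_isometry : Isometry e := AddMonoidHomClass.isometry_of_norm e e_norm

theorem lift_eq (z : MonoidAlgebra ℂ G) : e (MonoidAlgebra.lift ℂ (L2 →L[ℂ] L2) G Koop.rho z) =
    MonoidAlgebra.lift ℂ Op G rho z := by
  have h : e.comp (MonoidAlgebra.lift ℂ (L2 →L[ℂ] L2) G Koop.rho) =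
      MonoidAlgebra.lift ℂ Op G rho := by
    apply MonoidAlgebra.algHom_ext
    · intro g
      rw [AlgHom.comp_apply, MonoidAlgebra.lift_single, MonoidAlgebra.lift_single, one_smul,
        one_smul, e_rho]
    · exact Subsingleton.elim _ _
  exact DFunLike.congr_fun h z

theorem image_range : e '' (MonoidAlgebra.lift ℂ (L2 →L[ℂ] L2) G Koop.rho).range =
    ((MonoidAlgebra.lift ℂ Op G rho).range : Set Op) := by
  ext y
  constructor
  · rintro ⟨_, ⟨z, rfl⟩, rfl⟩
    exact ⟨z, (lift_eq z).symm⟩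
  · rintro ⟨z, rfl⟩
    exact ⟨_, ⟨z, rfl⟩, lift_eq z⟩

theorem mem_iff (x : L2 →L[ℂ] L2) : x ∈ Koop.CStarRho ↔ e x ∈ CStarRho := by
  have h := e_isometry.isUniformInducing.isInducing.closure_eq_preimage_closure_image
    ((MonoidAlgebra.lift ℂ (L2 →L[ℂ] L2) G Koop.rho).range : Set (L2 →L[ℂ] L2))
  rw [image_range] at h
  exact Set.ext_iff.1 h x

theorem finiteDimensional_quotient' (I : Ideal CStarRho) [I.IsTwoSided]
    (hclosed : IsClosed (I : Set CStarRho)) (hne : I ≠ ⊥) :
    FiniteDimensional ℂ (CStarRho ⧸ I) :=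
  finDim_transfer Koop.CStarRho CStarRho e e_isometry.continuous (fun x hx => (mem_iff x).1 hx)
    (fun y hy => by
      obtain ⟨x, rfl⟩ := e_surj y
      exact ⟨x, (mem_iff x).2 hy, rfl⟩)
    (fun I _ h1 h2 => finiteDimensional_quotient I h1 h2) I hclosed hne

end Pool.Agent.Helper684.KoopS
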