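import Pool.Agent.Helper684.Koop.Main

/-!
Every quotient of the Koopman C*-algebra of the Grigorchuk group by a nonzero closed two-sided
ideal is finite dimensional.
-/

open MeasureTheory ContinuousLinearMap

namespace Pool.Agent.Helper684.Koop

variable {S : Bool → (L2 →L[ℂ] L2)}

theorem lift_eq_TT (x : MonoidAlgebra ℂ G) :
    MonoidAlgebra.lift ℂ (L2 →L[ℂ] L2) G rho x = TT x.coeff.support x.coeff := by
  rw [MonoidAlgebra.lift_apply]
  rfl

theorem norm_Sw_le (hS : Cuntz S) (v : List Bool) : ‖Sw S v‖ ≤ 1 :=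
  ContinuousLinearMap.opNorm_le_bound _ zero_le_one (fun f => by rw [v868_norm hS, one_mul])

theorem norm_adj_Sw_le (hS : Cuntz S) (v : List Bool) : ‖adjoint (Sw S v)‖ ≤ 1 := by
  rw [LinearIsometryEquiv.norm_map]
  exact norm_Sw_le hS v

theorem norm_comb_le (hS : Cuntz S) {n : ℕ} {W : Finset (List Bool)} (hW : W ⊆ lev n)
    (η : List Bool → ℂ) : ‖∑ v ∈ W, η v • Sw S v‖ ≤ Real.sqrt (∑ v ∈ W, ‖η v‖ ^ 2) := by
  refine ContinuousLinearMap.opNorm_le_bound _ (Real.sqrt_nonneg _) (fun e => ?_)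
  have h1 : (∑ v ∈ W, η v • Sw S v) e = ∑ v ∈ W, Sw S v (η v • e) := by
    rw [sum_apply]
    exact Finset.sum_congr rfl fun v _ => by rw [map_smul, smul_apply]
  apply le_of_sq_le_sq _ (by positivity)
  rw [h1, v868_sum hS hW, mul_pow, Real.sq_sqrt (by positivity), Finset.sum_mul]
  apply le_of_eq
  exact Finset.sum_congr rfl fun v _ => by rw [norm_smul, mul_pow]

theorem sq_lt_abs {a b : ℝ} (hb : 0 ≤ b) (h : a ^ 2 < b ^ 2) : a < b := by
  by_contra hcon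
  push Not at hcon
  nlinarith

/-- The key step: corner idempotents are in the ideal. -/
theorem exists_level (hS : Cuntz S) (I : Ideal CStarRho) [I.IsTwoSided]
    (hI : IsClosed (I : Set CStarRho)) (hne : I ≠ ⊥) :
    ∃ n : ℕ, ∀ w : List Bool, w.length = n → InI I (Sw S w * QQ * adjoint (Sw S w)) := by
  classical
  obtain ⟨T, hTI, hT0⟩ := Submodule.exists_mem_ne_zero_of_ne_bot hne
  set t : ℝ := ‖(T : L2 →L[ℂ] L2)‖ with ht
  have ht0 : 0 < t := norm_pos_iff.2 (fun h => hT0 (Subtype.ext h))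
  set ε : ℝ := t / 8 with hε
  have hε0 : 0 < ε := by positivity
  obtain ⟨T', ⟨x0, hx0⟩, hd⟩ := Metric.mem_closure_iff.1 T.2 ε hε0
  have hT' : T' = TT x0.coeff.support x0.coeff := by rw [← lift_eq_TT]; exact hx0.symm
  set F := x0.coeff.support with hF
  rw [dist_eq_norm] at hd
  have hT'n : 7 * ε ≤ ‖T'‖ := by
    have := norm_sub_norm_le (T : L2 →L[ℂ] L2) T'
    have h8 : t = 8 * ε := by rw [hε]; ring
    linarith
  -- a localised vector
  have hex : ∃ n, ∃ W ⊆ lev n, (∀ v ∈ W, ∀ g ∈ F, sec g v = 1) ∧ ∃ η : List Bool → ℂ,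
      (4 * ε) ^ 2 * ∑ v ∈ W, ‖η v‖ ^ 2 < ‖TT F x0.coeff * ∑ v ∈ W, η v • Sw S v‖ ^ 2 := by
    by_contra hcon
    push Not at hcon
    have h1 := localization hS F x0.coeff (4 * ε) (by positivity) hcon
    rw [← hT'] at h1
    have h2 : Real.sqrt 2 < 3 / 2 := by
      rw [Real.sqrt_lt' (by norm_num)]
      norm_num
    nlinarith
  obtain ⟨n, W, hW, hgood, η, hη⟩ := hex
  refine ⟨n, fun w hw => ?_⟩
  set V : L2 →L[ℂ] L2 := ∑ v ∈ W, η v • Sw S v with hV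
  set h : ℝ := Real.sqrt (∑ v ∈ W, ‖η v‖ ^ 2) with hh
  have hh2 : h ^ 2 = ∑ v ∈ W, ‖η v‖ ^ 2 := Real.sq_sqrt (by positivity)
  have hh0 : 0 ≤ h := Real.sqrt_nonneg _
  set ζ : List Bool → ℂ := fun u => ∑ v ∈ W, (∑ g ∈ F with act g v = u, x0.coeff g) * η v with hζ
  set Z : L2 →L[ℂ] L2 := TT F x0.coeff * V with hZ
  have hZe : ∀ e : L2, Z e = ∑ u ∈ lev n, Sw S u (ζ u • e) := by
    intro e
    have h2 : Z e = (∑ g ∈ F, x0.coeff g • rho g) (∑ v ∈ W, Sw S v (η v • e)) := by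
      show (∑ g ∈ F, x0.coeff g • rho g) ((∑ v ∈ W, η v • Sw S v) e) = _
      congr 1
      rw [sum_apply]
      exact Finset.sum_congr rfl fun v _ => by rw [map_smul, smul_apply]
    rw [h2, v868_T hS hW hgood]
    refine Finset.sum_congr rfl fun u _ => ?_
    congr 1
    rw [hζ, Finset.sum_smul]
    exact Finset.sum_congr rfl fun v _ => by rw [smul_smul]
  have hZsum : Z = ∑ u ∈ lev n, ζ u • Sw S u := by
    ext1 e
    rw [hZe, sum_apply]
    exact Finset.sum_congr rfl fun v _ => by rw [map_smul, smul_apply]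
  set κ : ℝ := Real.sqrt (∑ u ∈ lev n, ‖ζ u‖ ^ 2) with hκ
  have hκ2 : κ ^ 2 = ∑ u ∈ lev n, ‖ζ u‖ ^ 2 := Real.sq_sqrt (by positivity)
  have hZn : ‖Z‖ ≤ κ := by
    rw [hZsum]
    exact norm_comb_le hS (le_refl _) ζ
  have hκh : 4 * ε * h < κ := by
    apply sq_lt_abs (Real.sqrt_nonneg _)
    rw [mul_pow, hh2]
    exact hη.trans_le (pow_le_pow_left₀ (norm_nonneg _) hZn 2)
  have hκ0 : 0 < κ := lt_of_le_of_lt (by positivity) hκh
  have hκC : (κ : ℂ) ≠ 0 := by exact_mod_cast hκ0.ne'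
  have hZZ : adjoint Z * Z = ((κ : ℂ) ^ 2) • (1 : L2 →L[ℂ] L2) := by
    have h1 : ∀ e : L2, ‖((κ : ℂ)⁻¹ • Z) e‖ = ‖e‖ := by
      intro e
      rw [smul_apply, norm_smul, hZe]
      have h2 := v868_sum hS (le_refl (lev n)) (fun u => ζ u • e)
      have h3 : ∑ u ∈ lev n, ‖ζ u • e‖ ^ 2 = (κ * ‖e‖) ^ 2 := by
        rw [mul_pow, hκ2, Finset.sum_mul]
        exact Finset.sum_congr rfl fun v _ => by rw [norm_smul, mul_pow]
      rw [h3] at h2
      have h4 := (sq_eq_sq₀ (norm_nonneg _) (by positivity)).1 h2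
      rw [h4, norm_inv, Complex.norm_real, Real.norm_of_nonneg hκ0.le]
      field_simp
    have h5 : adjoint ((κ : ℂ)⁻¹ • Z) * ((κ : ℂ)⁻¹ • Z) = 1 :=
      (norm_map_iff_adjoint_comp_self _).1 h1
    have h6 : adjoint ((κ : ℂ)⁻¹ • Z) = (κ : ℂ)⁻¹ • adjoint Z := by
      rw [map_smulₛₗ]
      congr 1
      rw [map_inv₀, Complex.conj_ofReal]
    rw [h6, smul_mul_smul_comm] at h5
    rw [← h5, smul_smul]
    have h7 : (κ : ℂ) ^ 2 * ((κ : ℂ)⁻¹ * (κ : ℂ)⁻¹) = 1 := by field_simp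
    rw [h7, one_smul]
  -- the two multipliers
  set x : L2 →L[ℂ] L2 := Sw S w * QQ * adjoint Z with hx
  set y : L2 →L[ℂ] L2 := V * QQ * adjoint (Sw S w) with hy
  have hxm : x ∈ CStarRho := by
    have h1 : x = ∑ u ∈ lev n, (starRingEnd ℂ (ζ u)) • (Sw S w * QQ * adjoint (Sw S u)) := by
      rw [hx, hZsum, map_sum, Finset.mul_sum]
      refine Finset.sum_congr rfl fun u _ => ?_
      rw [map_smulₛₗ, mul_smul_comm]
    rw [h1]
    apply CStarRho.sum_mem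
    intro u hu
    apply CStarRho.smul_mem
    exact corner_QQ_mem hS (by rw [mem_lev.1 hu, hw])
  have hym : y ∈ CStarRho := by
    have h1 : y = ∑ v ∈ W, (η v) • (Sw S v * QQ * adjoint (Sw S w)) := by
      rw [hy, hV, Finset.sum_mul, Finset.sum_mul]
      refine Finset.sum_congr rfl fun u _ => ?_
      rw [smul_mul_assoc, smul_mul_assoc]
    rw [h1]
    apply CStarRho.sum_mem
    intro u hu
    apply CStarRho.smul_mem
    exact corner_QQ_mem hS (by rw [mem_lev.1 (hW hu), hw])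
  set e : L2 →L[ℂ] L2 := Sw S w * QQ * adjoint (Sw S w) with he
  have hem : e ∈ CStarRho := corner_QQ_mem hS rfl
  have hee : e * e = e := by
    rw [he]
    calc Sw S w * QQ * adjoint (Sw S w) * (Sw S w * QQ * adjoint (Sw S w)) =
        Sw S w * (QQ * (adjoint (Sw S w) * Sw S w) * QQ) * adjoint (Sw S w) := by
          simp only [mul_assoc]
      _ = _ := by rw [Sw_iso hS, mul_one, QQ_sq]
  have hxTy : x * T' * y = ((κ : ℂ) ^ 2) • e := by
    calc x * T' * y = Sw S w * QQ * (adjoint Z * (T' * V)) * QQ * adjoint (Sw S w) := by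
          rw [hx, hy]; simp only [mul_assoc]
      _ = Sw S w * QQ * (adjoint Z * Z) * QQ * adjoint (Sw S w) := by rw [hZ, hT']
      _ = ((κ : ℂ) ^ 2) • (Sw S w * (QQ * QQ) * adjoint (Sw S w)) := by
          rw [hZZ]
          simp only [mul_smul_comm, smul_mul_assoc, mul_one, mul_assoc]
      _ = ((κ : ℂ) ^ 2) • e := by rw [QQ_sq]
  set z : L2 →L[ℂ] L2 := ((κ : ℂ) ^ 2)⁻¹ • (x * (T : L2 →L[ℂ] L2) * y) with hz
  have hzI : InI I z := by
    apply InI.smul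
    exact (InI.mul_left hxm ⟨T.2, hTI⟩).mul_right hym
  have hxn : ‖x‖ ≤ 2 * κ := by
    calc ‖x‖ ≤ ‖Sw S w * QQ‖ * ‖adjoint Z‖ := norm_mul_le _ _
      _ ≤ (‖Sw S w‖ * ‖QQ‖) * ‖adjoint Z‖ :=
          mul_le_mul_of_nonneg_right (norm_mul_le _ _) (norm_nonneg _)
      _ ≤ (1 * 2) * κ := by
          have h1 : ‖adjoint Z‖ ≤ κ := by rw [LinearIsometryEquiv.norm_map]; exact hZn
          exact mul_le_mul (mul_le_mul (norm_Sw_le hS w) norm_QQ_le (norm_nonneg _) zero_le_one)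
            h1 (norm_nonneg _) (by norm_num)
      _ = 2 * κ := by ring
  have hyn : ‖y‖ ≤ 2 * h := by
    calc ‖y‖ ≤ ‖V * QQ‖ * ‖adjoint (Sw S w)‖ := norm_mul_le _ _
      _ ≤ (‖V‖ * ‖QQ‖) * ‖adjoint (Sw S w)‖ :=
          mul_le_mul_of_nonneg_right (norm_mul_le _ _) (norm_nonneg _)
      _ ≤ (h * 2) * 1 := by
          exact mul_le_mul (mul_le_mul (norm_comb_le hS hW η) norm_QQ_le (norm_nonneg _) hh0)
            (norm_adj_Sw_le hS w) (norm_nonneg _) (by positivity)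
      _ = 2 * h := by ring
  have hez : ‖e - z‖ < 1 := by
    have h1 : e - z = ((κ : ℂ) ^ 2)⁻¹ • (x * (T' - (T : L2 →L[ℂ] L2)) * y) := by
      have h2 : e = ((κ : ℂ) ^ 2)⁻¹ • (x * T' * y) := by
        rw [hxTy, smul_smul, inv_mul_cancel₀ (pow_ne_zero 2 hκC), one_smul]
      rw [hz, mul_sub, sub_mul, smul_sub, ← h2]
    have h3 : ‖T' - (T : L2 →L[ℂ] L2)‖ ≤ ε := by rw [norm_sub_rev]; exact hd.le
    have h4 : ‖x * (T' - (T : L2 →L[ℂ] L2)) * y‖ ≤ (2 * κ) * ε * (2 * h) :=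
      (norm_mul_le _ _).trans (mul_le_mul ((norm_mul_le _ _).trans
        (mul_le_mul hxn h3 (norm_nonneg _) (by positivity))) hyn (norm_nonneg _) (by positivity))
    have h5 : ‖((κ : ℂ) ^ 2)⁻¹‖ = (κ ^ 2)⁻¹ := by
      rw [norm_inv, norm_pow, Complex.norm_real, Real.norm_of_nonneg hκ0.le]
    rw [h1, norm_smul, h5]
    calc (κ ^ 2)⁻¹ * ‖x * (T' - (T : L2 →L[ℂ] L2)) * y‖ ≤
        (κ ^ 2)⁻¹ * ((2 * κ) * ε * (2 * h)) := mul_le_mul_of_nonneg_left h4 (by positivity)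
      _ = (4 * ε * h) / κ := by field_simp; ring
      _ < 1 := (div_lt_one hκ0).2 hκh
  obtain ⟨hzm, hzI'⟩ := hzI
  refine ⟨hem, ?_⟩
  exact idem_mem I hI (e := ⟨e, hem⟩) (z := ⟨z, hzm⟩) (Subtype.ext hee) hzI' hez

end Pool.Agent.Helper684.Koop
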