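import Pool.Agent.Helper684.Koop.Act

/-!
Group theory of the Grigorchuk group: self-replication, branching over `(ab)²`, and the finite
quotient by `(ab)²`.
-/

namespace Pool.Agent.Helper684.Koop

theorem perm_ext_cons {g h : Equiv.Perm Bd} (H : ∀ x w, g (cons x w) = h (cons x w)) : g = h := by
  apply Equiv.ext
  intro w
  rw [← cons_tail w]
  exact H _ _

theorem a_sq : a * a = 1 := by
  apply Equiv.ext; intro w; exact aFun_invol w
theorem b_sq : b * b = 1 := by
  apply Equiv.ext; intro w; exact bCo_invol w
theorem c_sq : c * c = 1 := by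
  apply Equiv.ext; intro w; exact cCo_invol w
theorem d_sq : d * d = 1 := by
  apply Equiv.ext; intro w; exact dCo_invol w

theorem bcd_aux (n : ℕ) : ∀ w : Bd, (b (c w)) n = (d w) n ∧ (c (d w)) n = (b w) n ∧
    (d (b w)) n = (c w) n := by
  induction n with
  | zero =>
    intro w
    rw [← cons_tail w]
    rcases w 0 with _ | _
    · rw [c_false, b_false, d_false, c_false, b_false, d_false]
      exact ⟨rfl, rfl, rfl⟩
    · rw [c_true, b_true, d_true, c_true, b_true, d_true]
      exact ⟨rfl, rfl, rfl⟩
  | succ n ih =>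
    intro w
    rw [← cons_tail w]
    rcases w 0 with _ | _
    · rw [c_false, b_false, d_false, c_false, b_false, d_false]
      refine ⟨congrFun (f := a (a (tail w))) (g := tail w) (aFun_invol (tail w)) n, rfl, rfl⟩
    · rw [c_true, b_true, d_true, c_true, b_true, d_true]
      exact ⟨(ih (tail w)).2.1, (ih (tail w)).2.2, (ih (tail w)).1⟩

theorem b_mul_c : b * c = d := Equiv.ext fun w => funext fun n => (bcd_aux n w).1
theorem c_mul_d : c * d = b := Equiv.ext fun w => funext fun n => (bcd_aux n w).2.1
theorem d_mul_b : d * b = c := Equiv.ext fun w => funext fun n => (bcd_aux n w).2.2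

theorem b_mul_d : b * d = c := by
  rw [← b_mul_c, ← mul_assoc, b_sq, one_mul]

/-- The bijection acting as `k` on the words starting with `x`, and trivially elsewhere. -/
def ins (x : Bool) : Equiv.Perm Bd →* Equiv.Perm Bd where
  toFun k :=
    { toFun := fun w => if w 0 = x then cons x (k (tail w)) else w
      invFun := fun w => if w 0 = x then cons x (k.symm (tail w)) else w
      left_inv := by
        intro w
        by_cases h : w 0 = x
        · simp only [h, if_true]
          show (if (cons x (k (tail w))) 0 = x then cons x (k.symm (tail (cons x (k (tail w)))))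
            else _) = w
          have h1 : (cons x (k (tail w))) 0 = x := rfl
          have h2 : tail (cons x (k (tail w))) = k (tail w) := rfl
          rw [h1, h2, if_pos rfl, Equiv.symm_apply_apply, ← h, cons_tail]
        · simp only [h, if_false]
      right_inv := by
        intro w
        by_cases h : w 0 = x
        · simp only [h, if_true]
          show (if (cons x (k.symm (tail w))) 0 = x then
            cons x (k (tail (cons x (k.symm (tail w))))) else _) = w
          have h1 : (cons x (k.symm (tail w))) 0 = x := rfl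
          have h2 : tail (cons x (k.symm (tail w))) = k.symm (tail w) := rfl
          rw [h1, h2, if_pos rfl, Equiv.apply_symm_apply, ← h, cons_tail]
        · simp only [h, if_false] }
  map_one' := by
    apply Equiv.ext
    intro w
    show (if w 0 = x then cons x (tail w) else w) = w
    split_ifs with h
    · rw [← h, cons_tail]
    · rfl
  map_mul' g h := by
    apply perm_ext_cons
    intro y w
    show (if (cons y w) 0 = x then cons x (g (h (tail (cons y w)))) else cons y w) =
      (if (if (cons y w) 0 = x then cons x (h (tail (cons y w))) else cons y w) 0 = x then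
        cons x (g (tail (if (cons y w) 0 = x then cons x (h (tail (cons y w))) else cons y w)))
        else (if (cons y w) 0 = x then cons x (h (tail (cons y w))) else cons y w))
    have h1 : (cons y w) 0 = y := rfl
    have h2 : tail (cons y w) = w := rfl
    rw [h1, h2]
    by_cases hy : y = x
    · have h3 : (cons x (h w)) 0 = x := rfl
      rw [if_pos hy, if_pos hy, h3, if_pos rfl]
      rfl
    · rw [if_neg hy, if_neg hy, h1, if_neg hy]

theorem ins_same (x : Bool) (k : Equiv.Perm Bd) (w : Bd) :
    ins x k (cons x w) = cons x (k w) := by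
  show (if (cons x w) 0 = x then cons x (k (tail (cons x w))) else cons x w) = _
  have h3 : (cons x w) 0 = x := rfl
  rw [h3, if_pos rfl]
  rfl

theorem ins_other {x y : Bool} (h : y ≠ x) (k : Equiv.Perm Bd) (w : Bd) :
    ins x k (cons y w) = cons y w := by
  show (if (cons y w) 0 = x then cons x (k (tail (cons y w))) else cons y w) = _
  rw [if_neg]
  exact h

theorem ins_ff (k : Equiv.Perm Bd) (w : Bd) : ins false k (cons false w) = cons false (k w) :=
  ins_same _ _ _
theorem ins_tt (k : Equiv.Perm Bd) (w : Bd) : ins true k (cons true w) = cons true (k w) :=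
  ins_same _ _ _
theorem ins_ft (k : Equiv.Perm Bd) (w : Bd) : ins false k (cons true w) = cons true w :=
  ins_other (by simp) _ _
theorem ins_tf (k : Equiv.Perm Bd) (w : Bd) : ins true k (cons false w) = cons false w :=
  ins_other (by simp) _ _

theorem ins_comm (g h : Equiv.Perm Bd) : ins false g * ins true h = ins true h * ins false g := by
  apply perm_ext_cons
  rintro (_ | _) w <;> simp only [Equiv.Perm.mul_apply, ins_ff, ins_tt, ins_ft, ins_tf]

/-- The bijection acting as `k` on the words starting with `v`, and trivially elsewhere. -/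
def insV : List Bool → Equiv.Perm Bd →* Equiv.Perm Bd
  | [] => MonoidHom.id _
  | x :: v => (ins x).comp (insV v)

@[simp] theorem insV_nil (k : Equiv.Perm Bd) : insV [] k = k := rfl
@[simp] theorem insV_cons (x : Bool) (v : List Bool) (k : Equiv.Perm Bd) :
    insV (x :: v) k = ins x (insV v k) := rfl

/-- The element `(ab)²`. -/
def k0 : Equiv.Perm Bd := (a * b) ^ 2

theorem b_eq : b = ins false a * ins true c := by
  apply perm_ext_cons
  rintro (_ | _) w <;>
    simp only [Equiv.Perm.mul_apply, ins_ff, ins_tt, ins_ft, ins_tf, b_false, b_true]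
theorem c_eq : c = ins false a * ins true d := by
  apply perm_ext_cons
  rintro (_ | _) w <;>
    simp only [Equiv.Perm.mul_apply, ins_ff, ins_tt, ins_ft, ins_tf, c_false, c_true]
theorem d_eq : d = ins true b := by
  apply perm_ext_cons
  rintro (_ | _) w <;>
    simp only [ins_ff, ins_tt, ins_ft, ins_tf, d_false, d_true]

theorem a_ins_false (k : Equiv.Perm Bd) : a * ins false k * a = ins true k := by
  apply perm_ext_cons
  rintro (_ | _) w <;>
    simp only [Equiv.Perm.mul_apply, ins_ff, ins_tt, ins_ft, ins_tf, a_cons, Bool.not_false,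
      Bool.not_true]
theorem a_ins_true (k : Equiv.Perm Bd) : a * ins true k * a = ins false k := by
  apply perm_ext_cons
  rintro (_ | _) w <;>
    simp only [Equiv.Perm.mul_apply, ins_ff, ins_tt, ins_ft, ins_tf, a_cons, Bool.not_false,
      Bool.not_true]

/-- `(ab)² = (ca, ac)`. -/
theorem k0_eq : k0 = ins false (c * a) * ins true (a * c) := by
  unfold k0
  apply perm_ext_cons
  rintro (_ | _) w <;>
    simp only [pow_two, Equiv.Perm.mul_apply, ins_ff, ins_tt, ins_ft, ins_tf, a_cons, b_false,
      b_true, Bool.not_false, Bool.not_true]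

theorem ca_sq : (c * a) ^ 2 = ins false (a * d) * ins true (d * a) := by
  apply perm_ext_cons
  rintro (_ | _) w <;>
    simp only [pow_two, Equiv.Perm.mul_apply, ins_ff, ins_tt, ins_ft, ins_tf, a_cons, c_false,
      c_true, Bool.not_false, Bool.not_true]

theorem ac_sq : (a * c) ^ 2 = ins false (d * a) * ins true (a * d) := by
  apply perm_ext_cons
  rintro (_ | _) w <;>
    simp only [pow_two, Equiv.Perm.mul_apply, ins_ff, ins_tt, ins_ft, ins_tf, a_cons, c_false,
      c_true, Bool.not_false, Bool.not_true]

theorem ad_sq : (a * d) ^ 2 = ins false b * ins true b := by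
  apply perm_ext_cons
  rintro (_ | _) w <;>
    simp only [pow_two, Equiv.Perm.mul_apply, ins_ff, ins_tt, ins_ft, ins_tf, a_cons, d_false,
      d_true, Bool.not_false, Bool.not_true]

theorem da_sq : (d * a) ^ 2 = ins false b * ins true b := by
  apply perm_ext_cons
  rintro (_ | _) w <;>
    simp only [pow_two, Equiv.Perm.mul_apply, ins_ff, ins_tt, ins_ft, ins_tf, a_cons, d_false,
      d_true, Bool.not_false, Bool.not_true]

theorem pair_pow (g h : Equiv.Perm Bd) (n : ℕ) :
    (ins false g * ins true h) ^ n = ins false (g ^ n) * ins true (h ^ n) := by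
  have : Commute (ins false g) (ins true h) := ins_comm g h
  rw [this.mul_pow, map_pow, map_pow]

theorem ad_four : (a * d) ^ 4 = 1 := by
  have : (a * d) ^ 4 = ((a * d) ^ 2) ^ 2 := by rw [← pow_mul]
  rw [this, ad_sq, pair_pow, pow_two b, b_sq, map_one, map_one, one_mul]

theorem da_four : (d * a) ^ 4 = 1 := by
  have : (d * a) ^ 4 = ((d * a) ^ 2) ^ 2 := by rw [← pow_mul]
  rw [this, da_sq, pair_pow, pow_two b, b_sq, map_one, map_one, one_mul]

theorem k0_pow : k0 ^ 8 = 1 := by
  rw [k0_eq, pair_pow]
  have h1 : (c * a) ^ 8 = 1 := by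
    have : (c * a) ^ 8 = ((c * a) ^ 2) ^ 4 := by rw [← pow_mul]
    rw [this, ca_sq, pair_pow, ad_four, da_four, map_one, map_one, one_mul]
  have h2 : (a * c) ^ 8 = 1 := by
    have : (a * c) ^ 8 = ((a * c) ^ 2) ^ 4 := by rw [← pow_mul]
    rw [this, ac_sq, pair_pow, ad_four, da_four, map_one, map_one, one_mul]
  rw [h1, h2, map_one, map_one, one_mul]

/-- Self-replication at the first letter, starting from `false`. -/
theorem exists_lift_false {k : Equiv.Perm Bd} (hk : k ∈ G) :
    ∃ h ∈ G, ∀ w, h (cons false w) = cons false (k w) := by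
  induction hk using Subgroup.closure_induction with
  | mem g hg =>
    simp only [Set.mem_insert_iff, Set.mem_singleton_iff] at hg
    rcases hg with rfl | rfl | rfl | rfl
    · exact ⟨b, b_mem, b_false⟩
    · exact ⟨a * d * a, G.mul_mem (G.mul_mem a_mem d_mem) a_mem, fun w => by
        simp only [Equiv.Perm.mul_apply, a_cons, Bool.not_false, d_true, Bool.not_true]⟩
    · exact ⟨a * b * a, G.mul_mem (G.mul_mem a_mem b_mem) a_mem, fun w => by
        simp only [Equiv.Perm.mul_apply, a_cons, Bool.not_false, b_true, Bool.not_true]⟩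
    · exact ⟨a * c * a, G.mul_mem (G.mul_mem a_mem c_mem) a_mem, fun w => by
        simp only [Equiv.Perm.mul_apply, a_cons, Bool.not_false, c_true, Bool.not_true]⟩
  | one => exact ⟨1, G.one_mem, fun w => rfl⟩
  | mul g h _ _ ihg ihh =>
    obtain ⟨g', hg', eg⟩ := ihg
    obtain ⟨h', hh', eh⟩ := ihh
    exact ⟨g' * h', G.mul_mem hg' hh', fun w => by
      rw [Equiv.Perm.mul_apply, eh, eg, Equiv.Perm.mul_apply]⟩
  | inv g _ ih =>
    obtain ⟨g', hg', eg⟩ := ih
    refine ⟨g'⁻¹, G.inv_mem hg', fun w => ?_⟩
    rw [Equiv.Perm.inv_eq_iff_eq, eg]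
    exact congrArg (cons false) (Equiv.apply_symm_apply g w).symm

theorem exists_lift (x y : Bool) {k : Equiv.Perm Bd} (hk : k ∈ G) :
    ∃ h ∈ G, ∀ w, h (cons x w) = cons y (k w) := by
  obtain ⟨h, hh, e⟩ := exists_lift_false hk
  rcases x with _ | _ <;> rcases y with _ | _
  · exact ⟨h, hh, e⟩
  · exact ⟨a * h, G.mul_mem a_mem hh, fun w => by
      rw [Equiv.Perm.mul_apply, e, a_cons, Bool.not_false]⟩
  · exact ⟨h * a, G.mul_mem hh a_mem, fun w => by
      rw [Equiv.Perm.mul_apply, a_cons, Bool.not_true, e]⟩
  · exact ⟨a * h * a, G.mul_mem (G.mul_mem a_mem hh) a_mem, fun w => by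
      rw [Equiv.Perm.mul_apply, Equiv.Perm.mul_apply, a_cons, Bool.not_true, e, a_cons,
        Bool.not_false]⟩

/-- Level transitivity and self-replication at all levels. -/
theorem exists_sec : ∀ (u v : List Bool), u.length = v.length → ∀ k : G,
    ∃ h : G, act h u = v ∧ sec h u = k
  | [], [], _, k => ⟨k, by simp, by simp⟩
  | x :: u, y :: v, hl, k => by
    obtain ⟨h, h1, h2⟩ := exists_sec u v (by simpa using hl) k
    obtain ⟨m, hm, e⟩ := exists_lift x y h.2
    refine ⟨⟨m, hm⟩, ?_⟩
    apply act_unique (by simpa using hl.symm)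
    intro w
    show m (cons x (app u w)) = _
    rw [e, act_spec, h1, h2]
    rfl

/-- The normal closure of `(ab)²` in the group. -/
def K : Subgroup (Equiv.Perm Bd) := Subgroup.closure {x | ∃ g ∈ G, x = g * k0 * g⁻¹}

theorem k0_memK : k0 ∈ K := Subgroup.subset_closure ⟨1, G.one_mem, by simp⟩

theorem k0_memG : k0 ∈ G := G.pow_mem (G.mul_mem a_mem b_mem) 2

theorem K_le : K ≤ G := by
  unfold K
  rw [Subgroup.closure_le]
  rintro _ ⟨g, hg, rfl⟩
  exact G.mul_mem (G.mul_mem hg k0_memG) (G.inv_mem hg)

theorem K_conj {g k : Equiv.Perm Bd} (hg : g ∈ G) (hk : k ∈ K) : g * k * g⁻¹ ∈ K := by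
  unfold K at hk
  induction hk using Subgroup.closure_induction with
  | mem x hx =>
    obtain ⟨h, hh, rfl⟩ := hx
    refine Subgroup.subset_closure ⟨g * h, G.mul_mem hg hh, ?_⟩
    group
  | one => simp [K.one_mem]
  | mul x y _ _ ihx ihy =>
    have : g * (x * y) * g⁻¹ = (g * x * g⁻¹) * (g * y * g⁻¹) := by group
    rw [this]
    exact K.mul_mem ihx ihy
  | inv x _ ih =>
    have : g * x⁻¹ * g⁻¹ = (g * x * g⁻¹)⁻¹ := by group
    rw [this]
    exact K.inv_mem ih

theorem a_inv : a⁻¹ = a := inv_eq_of_mul_eq_one_left a_sq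
theorem b_inv : b⁻¹ = b := inv_eq_of_mul_eq_one_left b_sq
theorem c_inv : c⁻¹ = c := inv_eq_of_mul_eq_one_left c_sq
theorem d_inv : d⁻¹ = d := inv_eq_of_mul_eq_one_left d_sq

theorem ins_false_k0 : ins false k0 ∈ K := by
  have h1 : (b * a * d * a) ^ 2 = ins false k0 := by
    unfold k0
    apply perm_ext_cons
    rintro (_ | _) w
    · simp only [pow_two, Equiv.Perm.mul_apply, ins_ff, a_cons, b_false, d_true, Bool.not_false,
        Bool.not_true]
    · simp only [pow_two, Equiv.Perm.mul_apply, ins_ft, a_cons, b_true, d_false, Bool.not_false,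
        Bool.not_true]
      congr 1
      exact cCo_invol w
  have h2 : (b * a * d * a) ^ 2 = k0⁻¹ * ((a * d) * k0⁻¹ * (a * d)⁻¹) := by
    have e1 : k0⁻¹ = b * a * b * a := by
      unfold k0
      rw [pow_two, mul_inv_rev, mul_inv_rev, a_inv, b_inv, ← mul_assoc]
    have e2 : b * d = d * b := by rw [b_mul_d, d_mul_b]
    rw [e1, mul_inv_rev, a_inv, d_inv, pow_two]
    calc b * a * d * a * (b * a * d * a) = b * a * (d * (b * b)) * a * b * a * d * a := by
          rw [b_sq]; simp only [mul_one, mul_assoc]
      _ = b * a * (b * d) * b * a * b * a * d * a := by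
          rw [e2]; simp only [mul_assoc]
      _ = b * a * b * (a * a) * d * b * a * b * a * d * a := by
          rw [a_sq]; simp only [mul_one, mul_assoc]
      _ = _ := by simp only [mul_assoc]
  rw [← h1, h2]
  exact K.mul_mem (K.inv_mem k0_memK) (K_conj (G.mul_mem a_mem d_mem) (K.inv_mem k0_memK))

theorem ins_false_mem {k : Equiv.Perm Bd} (hk : k ∈ K) : ins false k ∈ K := by
  unfold K at hk
  induction hk using Subgroup.closure_induction with
  | mem x hx =>
    obtain ⟨h, hh, rfl⟩ := hx
    obtain ⟨h', hh', e⟩ := exists_lift_false hh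
    have : ins false (h * k0 * h⁻¹) = h' * ins false k0 * h'⁻¹ := by
      rw [eq_mul_inv_iff_mul_eq]
      apply perm_ext_cons
      rintro (_ | _) w
      · have h5 : h⁻¹ (h w) = w := Equiv.symm_apply_apply h w
        rw [Equiv.Perm.mul_apply, Equiv.Perm.mul_apply, e, ins_ff, ins_ff, e,
          Equiv.Perm.mul_apply, Equiv.Perm.mul_apply, h5]
      · obtain ⟨y, m, hm, e2⟩ := exists_act_one hh' true
        have hy : y = true := by
          by_contra hy
          have hy' : y = false := by simpa using hy
          have h1 : h' (cons true (m⁻¹ (h (fun _ => false)))) = h' (cons false (fun _ => false)) := by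
            rw [e2, e, hy']
            exact congrArg (cons false) (Equiv.apply_symm_apply m _)
          have h2 := congrFun (h'.injective h1) 0
          exact absurd h2 (by simp [cons])
        rw [Equiv.Perm.mul_apply, e2, hy, ins_ft, Equiv.Perm.mul_apply, ins_ft, e2, hy]
    rw [this]
    exact K_conj hh' ins_false_k0
  | one => rw [map_one]; exact K.one_mem
  | mul x y _ _ ihx ihy => rw [map_mul]; exact K.mul_mem ihx ihy
  | inv x _ ih => rw [map_inv]; exact K.inv_mem ih

theorem ins_mem (x : Bool) {k : Equiv.Perm Bd} (hk : k ∈ K) : ins x k ∈ K := by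
  rcases x with _ | _
  · exact ins_false_mem hk
  · rw [← a_ins_false]
    have := K_conj a_mem (ins_false_mem hk)
    rwa [a_inv] at this

theorem insV_mem (v : List Bool) {k : Equiv.Perm Bd} (hk : k ∈ K) : insV v k ∈ K := by
  induction v with
  | nil => exact hk
  | cons x v ih => exact ins_mem x ih

end Pool.Agent.Helper684.Koop
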