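import Mathlib

/-!
Two lemmas on closed ideals. (Contributed by helper115.)
-/

namespace Pool.Agent.Helper684.Koop

/-- An idempotent at distance less than one from a closed two-sided ideal is in it. -/
theorem idem_mem {A : Type*} [NormedRing A] (I : Ideal A) [I.IsTwoSided]
    (hI : IsClosed (I : Set A)) {e z : A} (he : e * e = e) (hz : z ∈ I) (h : ‖e - z‖ < 1) :
    e ∈ I := by
  have key : ∀ k : ℕ, e - (e - z) ^ (k + 1) ∈ I := by
    intro k
    induction k with
    | zero => simpa using hz
    | succ k ih =>
      have h1 : e - (e - z) ^ (k + 1 + 1) =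
          (e - (e - z) ^ (k + 1)) * e + (e - z) ^ (k + 1) * z := by
        rw [pow_succ (e - z) (k + 1), sub_mul, he, mul_sub]
        abel
      rw [h1]
      exact I.add_mem (I.mul_mem_right e ih) (I.mul_mem_left _ hz)
  have hlim : Filter.Tendsto (fun k : ℕ => e - (e - z) ^ (k + 1)) Filter.atTop (nhds e) := by
    have h1 : Filter.Tendsto (fun k : ℕ => (e - z) ^ k) Filter.atTop (nhds 0) := by
      apply squeeze_zero_norm' (a := fun k : ℕ => ‖e - z‖ ^ k)
      · filter_upwards [Filter.eventually_gt_atTop 0] with k hk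
        exact norm_pow_le' _ hk
      · exact tendsto_pow_atTop_nhds_zero_of_lt_one (norm_nonneg _) h
    have h2 := (h1.comp (Filter.tendsto_add_atTop_nat 1)).const_sub e
    simpa using h2
  exact hI.mem_of_tendsto hlim (Filter.Eventually.of_forall key)

/-- If the classes modulo a closed ideal of a set with dense linear span form a
finite set, then the quotient is finite dimensional. -/
theorem finiteDimensional_of_classes {A : Type*} [NormedRing A] [NormedAlgebra ℂ A]
    (I : Ideal A) (hI : IsClosed (I : Set A)) (X : Set A)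
    (hX : ∀ x : A, x ∈ closure (Submodule.span ℂ X : Set A))
    (hfin : ((fun x : A => (Submodule.Quotient.mk x : A ⧸ I)) '' X).Finite) :
    FiniteDimensional ℂ (A ⧸ I) := by
  let W : Submodule ℂ A := I.restrictScalars ℂ
  have hW : IsClosed (W : Set A) := hI
  have : IsClosed (W : Set A) := hW
  have hWc : IsClosed (W.toAddSubgroup : Set A) := hW
  let e : (A ⧸ W) ≃ₗ[ℂ] (A ⧸ I) := Submodule.Quotient.restrictScalarsEquiv ℂ I
  let π : A →ₗ[ℂ] (A ⧸ W) := W.mkQ
  have hfin' : (π '' X).Finite := by
    have h1 : π '' X = e.symm '' ((fun x : A => (Submodule.Quotient.mk x : A ⧸ I)) '' X) := by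
      rw [Set.image_image]
      rfl
    rw [h1]
    exact hfin.image _
  let Y : Submodule ℂ (A ⧸ W) := Submodule.span ℂ (π '' X)
  have hY : FiniteDimensional ℂ Y := FiniteDimensional.span_of_finite ℂ hfin'
  have hYc : IsClosed (Y : Set (A ⧸ W)) := by
    exact Submodule.closed_of_finiteDimensional Y
  have hcont : Continuous π := continuous_quotient_mk'
  have htop : Y = ⊤ := by
    rw [eq_top_iff]
    intro y _
    obtain ⟨x, rfl⟩ := W.mkQ_surjective y
    have h1 : IsClosed (π ⁻¹' (Y : Set (A ⧸ W))) := hYc.preimage hcont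
    have h2 : (Submodule.span ℂ X : Set A) ⊆ π ⁻¹' (Y : Set (A ⧸ W)) := by
      intro a ha
      have h3 : Submodule.span ℂ X ≤ Y.comap π := by
        rw [Submodule.span_le]
        intro b hb
        exact Submodule.subset_span ⟨b, hb, rfl⟩
      exact h3 ha
    exact closure_minimal h2 h1 (hX x)
  have hfd : FiniteDimensional ℂ (A ⧸ W) := by
    rw [htop] at hY
    exact Module.Finite.equiv (Submodule.topEquiv (R := ℂ) (M := A ⧸ W))
  exact Module.Finite.equiv e

end Pool.Agent.Helper684.Koop
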