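import Pool.Agent.Helper684.Koop.Cyl

/-!
The two isometries on the Hilbert space of square integrable functions.
(Lemmas contributed by helpers 317, 625 and 264.)
-/

open MeasureTheory

namespace Pool.Agent.Helper684.Koop




theorem measurable_tail : Measurable tail := measurable_pi_iff.2 fun n => measurable_pi_apply (n + 1)

theorem cyl_cons_inter (x : Bool) (v : List Bool) : tail ⁻¹' cyl v ∩ cyl [x] = cyl (x :: v) := by
  ext w
  constructor
  · rintro ⟨⟨z, hz⟩, ⟨y, rfl⟩⟩
    refine ⟨z, ?_⟩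
    have h1 : tail (app [x] y) = y := rfl
    rw [h1] at hz
    rw [app_cons, hz]
    rfl
  · rintro ⟨z, rfl⟩
    exact ⟨⟨z, rfl⟩, ⟨app v z, rfl⟩⟩

theorem mem_cyl_one (x : Bool) (w : Bd) : w ∈ cyl [x] ↔ w 0 = x := by
  constructor
  · rintro ⟨z, rfl⟩
    rfl
  · intro h
    refine ⟨tail w, ?_⟩
    rw [app_cons, app_nil, ← h, cons_tail]

theorem mp_tail_restrict (x : Bool) :
    MeasurePreserving tail (mu.restrict (cyl [x])) ((2⁻¹ : ENNReal) • mu) := by
  refine ⟨measurable_tail, ?_⟩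
  apply ext_cyl
  intro v
  rw [Measure.map_apply measurable_tail (measurableSet_cyl v),
    Measure.restrict_apply (measurable_tail (measurableSet_cyl v)), cyl_cons_inter, mu_cyl,
    Measure.smul_apply, mu_cyl, smul_eq_mul, List.length_cons, pow_succ, mul_comm]

theorem mp_tail : MeasurePreserving tail mu mu := by
  refine ⟨measurable_tail, ?_⟩
  have : IsFiniteMeasure (Measure.map tail mu) := Measure.isFiniteMeasure_map mu _
  apply ext_cyl
  intro v
  rw [Measure.map_apply measurable_tail (measurableSet_cyl v)]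
  have h : tail ⁻¹' cyl v = cyl (false :: v) ∪ cyl (true :: v) := by
    rw [← cyl_cons_inter false v, ← cyl_cons_inter true v, ← Set.inter_union_distrib_left]
    have : cyl [false] ∪ cyl [true] = Set.univ := by
      ext w
      simp only [Set.mem_union, mem_cyl_one, Set.mem_univ, iff_true]
      cases w 0 <;> simp
    rw [this, Set.inter_univ]
  have hd : Disjoint (cyl (false :: v)) (cyl (true :: v)) := by
    rw [← cyl_cons_inter false v, ← cyl_cons_inter true v, Set.disjoint_left]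
    rintro w ⟨_, h1⟩ ⟨_, h2⟩
    rw [mem_cyl_one] at h1 h2
    rw [h1] at h2
    exact absurd h2 (by simp)
  rw [h, measure_union hd (measurableSet_cyl _), mu_cyl, mu_cyl, mu_cyl, List.length_cons,
    List.length_cons, pow_succ, ← mul_add, ENNReal.inv_two_add_inv_two, mul_one]

/-- the function underlying `S_x f` -/
noncomputable def sfun (x : Bool) (f : Bd → ℂ) (w : Bd) : ℂ :=
  if w 0 = x then ((Real.sqrt 2 : ℝ) : ℂ) * f (tail w) else 0

theorem sfun_eq (x : Bool) (f : Bd → ℂ) :
    sfun x f = (cyl [x]).indicator (((Real.sqrt 2 : ℝ) : ℂ) • (f ∘ tail)) := by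
  funext w
  by_cases h : w 0 = x
  · rw [Set.indicator_of_mem ((mem_cyl_one x w).2 h)]
    simp [sfun, h]
  · rw [Set.indicator_of_notMem (fun h' => h ((mem_cyl_one x w).1 h'))]
    simp [sfun, h]

theorem sfun_congr (x : Bool) {f g : Bd → ℂ} (h : f =ᵐ[mu] g) : sfun x f =ᵐ[mu] sfun x g := by
  filter_upwards [mp_tail.quasiMeasurePreserving.ae_eq_comp h] with w hw
  simp only [Function.comp] at hw
  simp only [sfun, hw]

theorem memLp_half {f : Bd → ℂ} (hf : MemLp f 2 mu) : MemLp f 2 ((2⁻¹ : ENNReal) • mu) :=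
  hf.smul_measure (by simp)

theorem memLp_sfun (x : Bool) {f : Bd → ℂ} (hf : MemLp f 2 mu) : MemLp (sfun x f) 2 mu := by
  rw [sfun_eq, memLp_indicator_iff_restrict (measurableSet_cyl _)]
  exact ((memLp_half hf).comp_measurePreserving (mp_tail_restrict x)).const_smul _

theorem eLpNorm_sfun (x : Bool) {f : Bd → ℂ} (hf : MemLp f 2 mu) :
    eLpNorm (sfun x f) 2 mu = eLpNorm f 2 mu := by
  rw [sfun_eq, eLpNorm_indicator_eq_eLpNorm_restrict (measurableSet_cyl _), eLpNorm_const_smul,
    eLpNorm_comp_measurePreserving (memLp_half hf).aestronglyMeasurable (mp_tail_restrict x),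
    eLpNorm_smul_measure_of_ne_top (by simp), smul_eq_mul, ← mul_assoc]
  have h1 : ‖((Real.sqrt 2 : ℝ) : ℂ)‖ₑ * (2⁻¹ : ENNReal) ^ (1 / (2 : ENNReal)).toReal = 1 := by
    have e1 : ‖((Real.sqrt 2 : ℝ) : ℂ)‖ₑ = (2 : ENNReal) ^ (1 / 2 : ℝ) := by
      rw [← ofReal_norm, Complex.norm_real, Real.norm_of_nonneg (Real.sqrt_nonneg _),
        Real.sqrt_eq_rpow, ← ENNReal.ofReal_rpow_of_pos (by norm_num)]
      norm_num
    have e2 : (1 / (2 : ENNReal)).toReal = (1 / 2 : ℝ) := by simp
    rw [e1, e2, ← ENNReal.mul_rpow_of_nonneg _ _ (by norm_num),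
      ENNReal.mul_inv_cancel (by norm_num) (by norm_num), ENNReal.one_rpow]
  rw [h1, one_mul]

/-- `S_x` as a linear isometry -/
noncomputable def Sl (x : Bool) : L2 →ₗᵢ[ℂ] L2 where
  toFun f := (memLp_sfun x (Lp.memLp f)).toLp (sfun x f)
  map_add' f g := by
    rw [← MemLp.toLp_add]
    apply (MemLp.toLp_eq_toLp_iff _ _).2
    refine (sfun_congr x (Lp.coeFn_add f g)).trans ?_
    refine Filter.Eventually.of_forall fun w => ?_
    simp only [sfun, Pi.add_apply]
    split_ifs <;> ring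
  map_smul' r f := by
    rw [RingHom.id_apply, ← MemLp.toLp_const_smul]
    apply (MemLp.toLp_eq_toLp_iff _ _).2
    refine (sfun_congr x (Lp.coeFn_smul r f)).trans ?_
    refine Filter.Eventually.of_forall fun w => ?_
    simp only [sfun, Pi.smul_apply, smul_eq_mul]
    split_ifs <;> ring
  norm_map' f := by
    show ‖(memLp_sfun x (Lp.memLp f)).toLp (sfun x f)‖ = ‖f‖
    rw [Lp.norm_toLp, eLpNorm_sfun x (Lp.memLp f), Lp.norm_def]

theorem Sl_coe (x : Bool) (f : L2) : (Sl x f : Bd → ℂ) =ᵐ[mu] sfun x f :=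
  MemLp.coeFn_toLp (memLp_sfun x (Lp.memLp f))

open ContinuousLinearMap in
/-- TARGET: the two isometries `S_x f (x w) = √2 f(w)`. -/
theorem exists_S : ∃ S : Bool → (L2 →L[ℂ] L2),
    (∀ x (f : L2), (S x f : Bd → ℂ) =ᵐ[mu]
      fun w => if w 0 = x then ((Real.sqrt 2 : ℝ) : ℂ) * f (tail w) else 0) ∧
    (∀ x, adjoint (S x) * S x = 1) ∧
    (∀ x y, x ≠ y → adjoint (S x) * S y = 0) := by
  refine ⟨fun x => (Sl x).toContinuousLinearMap, fun x f => Sl_coe x f, fun x => ?_,
    fun x y hxy => ?_⟩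
  · exact (ContinuousLinearMap.norm_map_iff_adjoint_comp_self _).1 fun f => (Sl x).norm_map f
  · ext1 g
    apply ext_inner_left ℂ
    intro f
    rw [mul_apply_eq_comp, ContinuousLinearMap.adjoint_inner_right,
      zero_apply, inner_zero_right, L2.inner_def]
    apply integral_eq_zero_of_ae
    filter_upwards [Sl_coe x f, Sl_coe y g] with w h1 h2
    show inner ℂ ((Sl x f : Bd → ℂ) w) ((Sl y g : Bd → ℂ) w) = 0
    rw [h1, h2]
    by_cases hx : w 0 = x
    · have hy : w 0 ≠ y := fun h => hxy (hx.symm.trans h)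
      simp [sfun, hy]
    · simp [sfun, hx]





theorem preimage_tail_cyl (v : List Bool) :
    tail ⁻¹' (cyl v) = cyl (false :: v) ∪ cyl (true :: v) := by
  ext w
  constructor
  · rintro ⟨z, hz⟩
    have h : w = cons (w 0) (app v z) := by
      rw [hz]; exact (cons_tail w).symm
    cases h0 : w 0 with
    | false => left; exact ⟨z, by rw [app_cons, h, h0]⟩
    | true => right; exact ⟨z, by rw [app_cons, h, h0]⟩
  · rintro (⟨z, rfl⟩ | ⟨z, rfl⟩)
    · exact ⟨z, rfl⟩
    · exact ⟨z, rfl⟩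

theorem measurePreserving_tail : MeasurePreserving tail mu mu := by
  refine ⟨measurable_tail, ?_⟩
  have : IsFiniteMeasure (Measure.map tail mu) := Measure.isFiniteMeasure_map mu _
  apply ext_cyl
  intro v
  rw [Measure.map_apply measurable_tail (measurableSet_cyl v), preimage_tail_cyl]
  have hd : Disjoint (cyl (false :: v)) (cyl (true :: v)) := by
    rw [Set.disjoint_left]
    rintro w ⟨z, rfl⟩ ⟨z', hz'⟩
    have := congrFun hz' 0
    simp [cons] at this
  rw [measure_union hd (measurableSet_cyl _), mu_cyl, mu_cyl, mu_cyl]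
  simp only [List.length_cons, pow_succ]
  rw [← mul_add]
  have : (2⁻¹ : ENNReal) + 2⁻¹ = 1 := ENNReal.inv_two_add_inv_two
  rw [this, mul_one]

open ContinuousLinearMap in
/-- TARGET: intertwining relation. -/
theorem S_intertwine (S : Bool → (L2 →L[ℂ] L2))
    (hS : ∀ x (f : L2), (S x f : Bd → ℂ) =ᵐ[mu]
      fun w => if w 0 = x then ((Real.sqrt 2 : ℝ) : ℂ) * f (tail w) else 0)
    (g h : G) (x y : Bool)
    (hg : ∀ w, (g : Equiv.Perm Bd) (cons x w) = cons y ((h : Equiv.Perm Bd) w)) :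
    rho g * S x = S y * rho h := by
  ext1 f
  apply Lp.ext
  have h1 : ((rho g * S x) f : Bd → ℂ) =ᵐ[mu] fun w => (S x f : Bd → ℂ) (((g⁻¹ : G) : Equiv.Perm Bd) w) :=
    Lp.coeFn_compMeasurePreserving (S x f) (measurePreserving_G g⁻¹)
  have h2 := (measurePreserving_G g⁻¹).quasiMeasurePreserving.ae_eq_comp (hS x f)
  have h3 := hS y (rho h f)
  have h4 : (rho h f : Bd → ℂ) =ᵐ[mu] fun w => (f : Bd → ℂ) (((h⁻¹ : G) : Equiv.Perm Bd) w) :=
    Lp.coeFn_compMeasurePreserving f (measurePreserving_G h⁻¹)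
  have h5 := measurePreserving_tail.quasiMeasurePreserving.ae_eq_comp h4
  have e : ((S y * rho h) f) = S y (rho h f) := rfl
  rw [e]
  filter_upwards [h1, h2, h3, h5] with w w1 w2 w3 w5
  rw [w1, w3]
  simp only [Function.comp_apply] at w2 w5
  rw [w2, w5]
  have ginv : ∀ u, ((g⁻¹ : G) : Equiv.Perm Bd) ((g : Equiv.Perm Bd) u) = u := fun u =>
    Equiv.symm_apply_apply (g : Equiv.Perm Bd) u
  have hinv : ∀ u, (h : Equiv.Perm Bd) (((h⁻¹ : G) : Equiv.Perm Bd) u) = u := fun u =>
    Equiv.apply_symm_apply (h : Equiv.Perm Bd) u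
  have ginv' : ∀ u, (g : Equiv.Perm Bd) (((g⁻¹ : G) : Equiv.Perm Bd) u) = u := fun u =>
    Equiv.apply_symm_apply (g : Equiv.Perm Bd) u
  by_cases hy : w 0 = y
  · have hw : w = (g : Equiv.Perm Bd) (cons x (((h⁻¹ : G) : Equiv.Perm Bd) (tail w))) := by
      rw [hg, hinv, ← hy, cons_tail]
    have hgw : ((g⁻¹ : G) : Equiv.Perm Bd) w = cons x (((h⁻¹ : G) : Equiv.Perm Bd) (tail w)) := by
      conv_lhs => rw [hw]
      exact ginv _
    rw [hgw, if_pos hy]
    have c0 : cons x (((h⁻¹ : G) : Equiv.Perm Bd) (tail w)) 0 = x := rfl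
    rw [if_pos c0]
    rfl
  · rw [if_neg hy]
    have : (((g⁻¹ : G) : Equiv.Perm Bd) w) 0 ≠ x := by
      intro h0
      apply hy
      have h6 := ginv' w
      rw [← cons_tail (((g⁻¹ : G) : Equiv.Perm Bd) w), h0, hg] at h6
      rw [← h6]; rfl
    rw [if_neg this]






theorem measurable_cons (x : Bool) : Measurable (cons x) := by
  apply measurable_pi_iff.mpr
  intro n
  cases n with
  | zero => exact measurable_const
  | succ n => exact measurable_pi_apply n

theorem mem_cyl_cons (x : Bool) (v : List Bool) (w : Bd) :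
    w ∈ cyl (x :: v) ↔ w 0 = x ∧ tail w ∈ cyl v := by
  constructor
  · rintro ⟨z, rfl⟩
    exact ⟨rfl, z, rfl⟩
  · rintro ⟨h1, z, h2⟩
    refine ⟨z, ?_⟩
    rw [app_cons, h2, ← h1, cons_tail]

theorem cons_preimage (x y : Bool) (v : List Bool) :
    cons x ⁻¹' (cyl (y :: v)) = if y = x then cyl v else ∅ := by
  ext w
  rw [Set.mem_preimage, mem_cyl_cons]
  have h1 : (cons x w) 0 = x := rfl
  have h2 : tail (cons x w) = w := rfl
  rw [h1, h2]
  by_cases h : y = x
  · simp [h]
  · have h' : ¬ x = y := fun e => h e.symm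
    simp [h, h']

theorem map_cons (x : Bool) :
    Measure.map (cons x) mu = (2 : ENNReal) • mu.restrict (cyl [x]) := by
  have : IsFiniteMeasure (Measure.map (cons x) mu) := Measure.isFiniteMeasure_map mu _
  apply ext_cyl
  intro v
  rw [Measure.map_apply (measurable_cons x) (measurableSet_cyl v), Measure.smul_apply,
    Measure.restrict_apply (measurableSet_cyl v), smul_eq_mul]
  cases v with
  | nil =>
    rw [cyl_nil, Set.preimage_univ, Set.univ_inter, ← cyl_nil, mu_cyl, mu_cyl]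
    simp [ENNReal.mul_inv_cancel]
  | cons y v =>
    rw [cons_preimage]
    by_cases h : y = x
    · subst h
      rw [if_pos rfl]
      have h1 : cyl (y :: v) ∩ cyl [y] = cyl (y :: v) := by
        apply Set.inter_eq_left.mpr
        intro w hw
        rw [mem_cyl_cons] at hw ⊢
        exact ⟨hw.1, by rw [cyl_nil]; trivial⟩
      rw [h1, mu_cyl, mu_cyl, List.length_cons, pow_succ, mul_comm ((2⁻¹ : ENNReal) ^ v.length),
        ← mul_assoc, ENNReal.mul_inv_cancel (by norm_num) (by norm_num), one_mul]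
    · rw [if_neg h]
      have h1 : cyl (y :: v) ∩ cyl [x] = ∅ := by
        ext w
        simp only [Set.mem_inter_iff, mem_cyl_cons, Set.mem_empty_iff_false, iff_false]
        rintro ⟨⟨h1, -⟩, ⟨h2, -⟩⟩
        exact h (h1.symm.trans h2)
      rw [h1]
      simp

theorem map_tail : Measure.map tail mu = mu := by
  have : IsFiniteMeasure (Measure.map tail mu) := Measure.isFiniteMeasure_map mu _
  apply ext_cyl
  intro v
  rw [Measure.map_apply measurable_tail (measurableSet_cyl v)]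
  have h1 : tail ⁻¹' cyl v = cyl (false :: v) ∪ cyl (true :: v) := by
    ext w
    rw [Set.mem_preimage, Set.mem_union, mem_cyl_cons, mem_cyl_cons]
    cases w 0 <;> simp
  rw [h1, measure_union _ (measurableSet_cyl _), mu_cyl, mu_cyl, mu_cyl]
  · rw [List.length_cons, List.length_cons, pow_succ, ← mul_add, ENNReal.inv_two_add_inv_two, mul_one]
  · rw [Set.disjoint_left]
    intro w h2 h3
    rw [mem_cyl_cons] at h2 h3
    rw [h2.1] at h3
    exact absurd h3.1 (by simp)

theorem qmp_tail : Measure.QuasiMeasurePreserving tail mu mu :=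
  ⟨measurable_tail, by rw [map_tail]⟩

theorem memLp_cons (x : Bool) (f : L2) :
    MemLp (fun w => (((Real.sqrt 2)⁻¹ : ℝ) : ℂ) * f (cons x w)) 2 mu := by
  apply MemLp.const_mul
  have h1 : MemLp f 2 (Measure.map (cons x) mu) := by
    rw [map_cons]
    exact ((Lp.memLp f).restrict _).smul_measure (by norm_num)
  exact h1.comp_of_map (measurable_cons x).aemeasurable

/-- the adjoint operators -/
noncomputable def fx (x : Bool) (f : L2) : L2 := (memLp_cons x f).toLp _

theorem fx_coe (x : Bool) (f : L2) :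
    (fx x f : Bd → ℂ) =ᵐ[mu] fun w => (((Real.sqrt 2)⁻¹ : ℝ) : ℂ) * f (cons x w) :=
  MemLp.coeFn_toLp _

theorem decomp (S : Bool → (L2 →L[ℂ] L2))
    (hS : ∀ x (f : L2), (S x f : Bd → ℂ) =ᵐ[mu]
      fun w => if w 0 = x then ((Real.sqrt 2 : ℝ) : ℂ) * f (tail w) else 0) (f : L2) :
    S false (fx false f) + S true (fx true f) = f := by
  apply Lp.ext
  have h0 : ∀ x, (fx x f : Bd → ℂ) ∘ tail =ᵐ[mu]
      (fun w => (((Real.sqrt 2)⁻¹ : ℝ) : ℂ) * f (cons x w)) ∘ tail :=
    fun x => qmp_tail.ae_eq_comp (fx_coe x f)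
  filter_upwards [Lp.coeFn_add (S false (fx false f)) (S true (fx true f)),
    hS false (fx false f), hS true (fx true f), h0 false, h0 true] with w h1 h2 h3 h4 h5
  rw [h1, Pi.add_apply, h2, h3]
  simp only [Function.comp_apply] at h4 h5
  rw [h4, h5]
  have h6 : ((Real.sqrt 2 : ℝ) : ℂ) * (((Real.sqrt 2)⁻¹ : ℝ) : ℂ) = 1 := by
    rw [← Complex.ofReal_mul, mul_inv_cancel₀ (by positivity)]
    simp
  have h7 : cons (w 0) (tail w) = w := cons_tail w
  rcases hw : w 0 with _ | _
  · rw [hw] at h7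
    simp only [if_true, Bool.false_eq_true, if_false, add_zero]
    rw [← mul_assoc, h6, one_mul, h7]
  · rw [hw] at h7
    simp only [if_true, Bool.true_eq_false, if_false, zero_add]
    rw [← mul_assoc, h6, one_mul, h7]

open ContinuousLinearMap in
theorem adj_eq (S : Bool → (L2 →L[ℂ] L2))
    (hS : ∀ x (f : L2), (S x f : Bd → ℂ) =ᵐ[mu]
      fun w => if w 0 = x then ((Real.sqrt 2 : ℝ) : ℂ) * f (tail w) else 0)
    (hiso : ∀ x, adjoint (S x) * S x = 1)
    (horth : ∀ x y, x ≠ y → adjoint (S x) * S y = 0) (x : Bool) (f : L2) :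
    adjoint (S x) f = fx x f := by
  have h1 : ∀ y (g : L2), adjoint (S y) (S y g) = g := by
    intro y g
    have := DFunLike.congr_fun (hiso y) g
    exact this
  have h2 : ∀ y z (g : L2), y ≠ z → adjoint (S y) (S z g) = 0 := by
    intro y z g hyz
    have := DFunLike.congr_fun (horth y z hyz) g
    exact this
  conv_lhs => rw [← decomp S hS f]
  rw [map_add]
  cases x with
  | false => rw [h1, h2 false true _ (by simp), add_zero]
  | true => rw [h1, h2 true false _ (by simp), zero_add]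

open ContinuousLinearMap in
/-- TARGET 1: completeness. -/
theorem S_complete (S : Bool → (L2 →L[ℂ] L2))
    (hS : ∀ x (f : L2), (S x f : Bd → ℂ) =ᵐ[mu]
      fun w => if w 0 = x then ((Real.sqrt 2 : ℝ) : ℂ) * f (tail w) else 0)
    (hiso : ∀ x, adjoint (S x) * S x = 1)
    (horth : ∀ x y, x ≠ y → adjoint (S x) * S y = 0) :
    S false * adjoint (S false) + S true * adjoint (S true) = 1 := by
  ext1 f
  show S false (adjoint (S false) f) + S true (adjoint (S true) f) = f
  rw [adj_eq S hS hiso horth false f, adj_eq S hS hiso horth true f, decomp S hS f]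

theorem cyl_ones_preimage (n : ℕ) :
    cons true ⁻¹' (cyl (List.replicate (n + 1) true)) = cyl (List.replicate n true) := by
  rw [List.replicate_succ, cons_preimage, if_pos rfl]

theorem lint_fx (n : ℕ) (f : L2) :
    ∫⁻ w in cyl (List.replicate n true), ‖fx true f w‖ₑ ^ (2 : ℝ) ∂mu
      = ∫⁻ w in cyl (List.replicate (n + 1) true), ‖f w‖ₑ ^ (2 : ℝ) ∂mu := by
  have h1 : ∫⁻ w in cyl (List.replicate n true), ‖fx true f w‖ₑ ^ (2 : ℝ) ∂mu
      = ∫⁻ w in cyl (List.replicate n true), (2⁻¹ : ENNReal) * ‖f (cons true w)‖ₑ ^ (2 : ℝ) ∂mu := by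
    apply lintegral_congr_ae
    apply ae_restrict_of_ae
    filter_upwards [fx_coe true f] with w hw
    rw [hw, enorm_mul, ENNReal.mul_rpow_of_nonneg _ _ (by norm_num)]
    congr 1
    have h2 : ‖(((Real.sqrt 2)⁻¹ : ℝ) : ℂ)‖ₑ = ENNReal.ofReal ((Real.sqrt 2)⁻¹) := by
      rw [← ofReal_norm, Complex.norm_real, Real.norm_of_nonneg (by positivity)]
    rw [h2, ENNReal.ofReal_rpow_of_nonneg (by positivity) (by norm_num)]
    have h3 : ((Real.sqrt 2)⁻¹ : ℝ) ^ (2 : ℝ) = 2⁻¹ := by
      rw [Real.rpow_two, inv_pow, Real.sq_sqrt (by norm_num)]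
    rw [h3, ENNReal.ofReal_inv_of_pos (by norm_num)]
    norm_num
  have hm : Measurable (fun w => ‖f w‖ₑ ^ (2 : ℝ)) :=
    (Lp.stronglyMeasurable f).measurable.enorm.pow_const _
  have h4 := setLIntegral_map (μ := mu) (measurableSet_cyl (List.replicate (n + 1) true)) hm
    (measurable_cons true)
  rw [cyl_ones_preimage, map_cons, Measure.restrict_smul, lintegral_smul_measure,
    Measure.restrict_restrict (measurableSet_cyl _)] at h4
  have h5 : cyl (List.replicate (n + 1) true) ∩ cyl [true] = cyl (List.replicate (n + 1) true) := by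
    apply Set.inter_eq_left.mpr
    intro w hw
    rw [List.replicate_succ, mem_cyl_cons] at hw
    rw [mem_cyl_cons]
    exact ⟨hw.1, by rw [cyl_nil]; trivial⟩
  rw [h5, smul_eq_mul] at h4
  rw [h1, lintegral_const_mul' _ _ (by norm_num), ← h4, ← mul_assoc,
    ENNReal.inv_mul_cancel (by norm_num) (by norm_num), one_mul]

theorem norm_sq_eq (g : L2) : ‖g‖ₑ ^ (2 : ℝ) = ∫⁻ w, ‖g w‖ₑ ^ (2 : ℝ) ∂mu := by
  rw [Lp.enorm_def, eLpNorm_eq_lintegral_rpow_enorm_toReal (by norm_num) (by norm_num)]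
  simp only [ENNReal.toReal_ofNat]
  rw [← ENNReal.rpow_mul]
  norm_num

open ContinuousLinearMap in
/-- TARGET 2: no atoms, in the form of strong convergence. -/
theorem S_tendsto (S : Bool → (L2 →L[ℂ] L2))
    (hS : ∀ x (f : L2), (S x f : Bd → ℂ) =ᵐ[mu]
      fun w => if w 0 = x then ((Real.sqrt 2 : ℝ) : ℂ) * f (tail w) else 0)
    (hiso : ∀ x, adjoint (S x) * S x = 1)
    (horth : ∀ x y, x ≠ y → adjoint (S x) * S y = 0) (f : L2) :
    Filter.Tendsto (fun n : ℕ => ‖(adjoint (S true) ^ n) f‖) Filter.atTop (nhds 0) := by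
  have key : ∀ n : ℕ, ∀ g : L2, ‖(adjoint (S true) ^ n) g‖ₑ ^ (2 : ℝ)
      = ∫⁻ w in cyl (List.replicate n true), ‖g w‖ₑ ^ (2 : ℝ) ∂mu := by
    intro n
    induction n with
    | zero =>
      intro g
      rw [pow_zero, List.replicate_zero, cyl_nil, Measure.restrict_univ]
      exact norm_sq_eq g
    | succ n ih =>
      intro g
      rw [pow_succ]
      show ‖(adjoint (S true) ^ n) (adjoint (S true) g)‖ₑ ^ (2 : ℝ) = _
      rw [ih, adj_eq S hS hiso horth true g, lint_fx]
  have h1 : Filter.Tendsto (fun n : ℕ => ‖(adjoint (S true) ^ n) f‖ₑ ^ (2 : ℝ)) Filter.atTop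
      (nhds 0) := by
    simp_rw [key]
    apply tendsto_setLIntegral_zero
    · rw [← norm_sq_eq]
      exact (ENNReal.rpow_lt_top_of_nonneg (by norm_num) enorm_ne_top).ne
    · show Filter.Tendsto (fun n : ℕ => mu (cyl (List.replicate n true))) Filter.atTop (nhds 0)
      simp_rw [mu_cyl, List.length_replicate]
      apply ENNReal.tendsto_pow_atTop_nhds_zero_of_lt_one
      exact ENNReal.inv_lt_one.mpr (by norm_num)
  have h2 : Filter.Tendsto (fun n : ℕ => (‖(adjoint (S true) ^ n) f‖ₑ ^ (2 : ℝ)) ^ ((1 : ℝ) / 2))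
      Filter.atTop (nhds ((0 : ENNReal) ^ ((1 : ℝ) / 2))) :=
    (ENNReal.continuous_rpow_const.tendsto _).comp h1
  have h3 : Filter.Tendsto (fun n : ℕ => ‖(adjoint (S true) ^ n) f‖ₑ) Filter.atTop (nhds 0) := by
    have e : (0 : ENNReal) ^ ((1 : ℝ) / 2) = 0 := ENNReal.zero_rpow_of_pos (by norm_num)
    rw [e] at h2
    refine h2.congr (fun n => ?_)
    rw [← ENNReal.rpow_mul]
    norm_num
  have h4 := (ENNReal.tendsto_toReal ENNReal.zero_ne_top).comp h3
  simpa [Function.comp_def] using h4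



end Pool.Agent.Helper684.Koop
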