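import Pool.Agent.Helper684.Koop.Vec

/-!
Localisation of the norm.
-/

open MeasureTheory ContinuousLinearMap

namespace Pool.Agent.Helper684.Koop

variable {S : Bool → (L2 →L[ℂ] L2)}

theorem pyth {x y : L2} (h : inner ℂ x y = 0) : ‖x + y‖ ^ 2 = ‖x‖ ^ 2 + ‖y‖ ^ 2 := by
  have := norm_add_sq_eq_norm_sq_add_norm_sq_of_inner_eq_zero x y h
  rw [pow_two, pow_two, pow_two]
  exact this

/-- The one-letter extensions of the words of a set. -/
def child (W : Finset (List Bool)) : Finset (List Bool) :=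
  W.image (fun v => v ++ [false]) ∪ W.image (fun v => v ++ [true])

theorem mem_child {W : Finset (List Bool)} {v : List Bool} {x : Bool} :
    v ++ [x] ∈ child W ↔ v ∈ W := by
  unfold child
  rw [Finset.mem_union, Finset.mem_image, Finset.mem_image]
  constructor
  · rintro (⟨u, hu, e⟩ | ⟨u, hu, e⟩)
    · rw [← (List.append_inj' e rfl).1]; exact hu
    · rw [← (List.append_inj' e rfl).1]; exact hu
  · intro h
    rcases x with _ | _
    · exact Or.inl ⟨v, h, rfl⟩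
    · exact Or.inr ⟨v, h, rfl⟩

theorem mem_child' {W : Finset (List Bool)} {u : List Bool} :
    u ∈ child W ↔ ∃ v ∈ W, ∃ x : Bool, u = v ++ [x] := by
  constructor
  · intro h
    unfold child at h
    rw [Finset.mem_union, Finset.mem_image, Finset.mem_image] at h
    rcases h with ⟨v, hv, rfl⟩ | ⟨v, hv, rfl⟩
    · exact ⟨v, hv, false, rfl⟩
    · exact ⟨v, hv, true, rfl⟩
  · rintro ⟨v, hv, x, rfl⟩
    exact mem_child.2 hv

theorem PW_child (hS : Cuntz S) (W : Finset (List Bool)) : PW S (child W) = PW S W := by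
  unfold PW child
  rw [Finset.sum_union, Finset.sum_image, Finset.sum_image, ← Finset.sum_add_distrib]
  · exact Finset.sum_congr rfl (fun v _ => (Pw_children hS v).symm)
  · intro u _ v _ h
    exact (List.append_inj' h rfl).1
  · intro u _ v _ h
    exact (List.append_inj' h rfl).1
  · rw [Finset.disjoint_left]
    intro u h1 h2
    rw [Finset.mem_image] at h1 h2
    obtain ⟨v, _, rfl⟩ := h1
    obtain ⟨w, _, e⟩ := h2
    have := (List.append_inj' e rfl).2
    simp at this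

theorem PW_union {W W' : Finset (List Bool)} (h : Disjoint W W') :
    PW S (W ∪ W') = PW S W + PW S W' := by
  unfold PW
  rw [Finset.sum_union h]

theorem rho_mul_PW (hS : Cuntz S) (g : G) (W : Finset (List Bool)) :
    rho g * PW S W = PW S (W.image (act g)) * rho g := by
  unfold PW
  rw [Finset.mul_sum, Finset.sum_image (fun u _ v _ h => act_injective g h), Finset.sum_mul]
  exact Finset.sum_congr rfl (fun v _ => rho_mul_Pw hS g v)

theorem PW_inner_zero (hS : Cuntz S) {n : ℕ} {W W' : Finset (List Bool)} (hW : W ⊆ lev n)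
    (hW' : W' ⊆ lev n) (hd : Disjoint W W') (x y : L2) :
    inner ℂ (PW S W x) (PW S W' y) = 0 := by
  unfold PW
  rw [sum_apply, sum_apply, sum_inner]
  apply Finset.sum_eq_zero
  intro u hu
  rw [inner_sum]
  apply Finset.sum_eq_zero
  intro v hv
  have hne : u ≠ v := fun e => (Finset.disjoint_left.1 hd) hu (e ▸ hv)
  have hl : u.length = v.length := by rw [mem_lev.1 (hW hu), mem_lev.1 (hW' hv)]
  have h0 := Sw_orth hS u v hl hne
  have h1 : adjoint (Sw S u) (Sw S v (adjoint (Sw S v) y)) = 0 := by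
    have := congrArg (fun A : L2 →L[ℂ] L2 => A (adjoint (Sw S v) y)) h0
    exact this
  show inner ℂ (Sw S u (adjoint (Sw S u) x)) (Sw S v (adjoint (Sw S v) y)) = 0
  rw [← adjoint_inner_right, h1, inner_zero_right]

/-- The operator of a finite combination of group elements. -/
noncomputable def TT (F : Finset G) (c : G → ℂ) : L2 →L[ℂ] L2 := ∑ g ∈ F, c g • rho g

theorem TT_PW (hS : Cuntz S) (F : Finset G) (c : G → ℂ) (W : Finset (List Bool)) (x : L2) :
    TT F c (PW S W x) = ∑ g ∈ F, c g • PW S (W.image (act g)) (rho g x) := by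
  unfold TT
  rw [sum_apply]
  apply Finset.sum_congr rfl
  intro g _
  rw [smul_apply]
  congr 1
  have := congrArg (fun A : L2 →L[ℂ] L2 => A x) (rho_mul_PW hS g W)
  exact this

theorem image_act_lev {n : ℕ} {W : Finset (List Bool)} (hW : W ⊆ lev n) (g : G) :
    W.image (act g) ⊆ lev n := by
  intro u hu
  obtain ⟨v, hv, rfl⟩ := Finset.mem_image.1 hu
  rw [mem_lev, act_length]
  exact mem_lev.1 (hW hv)

theorem TT_inner_zero (hS : Cuntz S) (F : Finset G) (c : G → ℂ) {n : ℕ}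
    {W W' : Finset (List Bool)} (hW : W ⊆ lev n) (hW' : W' ⊆ lev n)
    (hd : ∀ g ∈ F, ∀ g' ∈ F, Disjoint (W.image (act g)) (W'.image (act g'))) (x y : L2) :
    inner ℂ (TT F c (PW S W x)) (TT F c (PW S W' y)) = 0 := by
  rw [TT_PW hS, TT_PW hS, sum_inner]
  apply Finset.sum_eq_zero
  intro g hg
  rw [inner_sum]
  apply Finset.sum_eq_zero
  intro g' hg'
  rw [inner_smul_left, inner_smul_right,
    PW_inner_zero hS (image_act_lev hW g) (image_act_lev hW' g') (hd g hg g' hg')]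
  simp

theorem oo_length (n : ℕ) : (oo n).length = n := by simp [oo]
theorem zz_length (n : ℕ) : (zz n).length = n + 1 := by simp [zz]
theorem zz_eq (n : ℕ) : zz n = oo n ++ [false] := rfl
theorem oo_succ (n : ℕ) : oo (n + 1) = oo n ++ [true] := by
  simp [oo, List.replicate_succ']

/-- Words near `1ⁿ0`. -/
noncomputable def DD (B : Finset G) (n : ℕ) : Finset (List Bool) := B.image (fun h => act h (zz n))
/-- Words near `1ⁿ⁺¹`. -/
noncomputable def EE (B : Finset G) (n : ℕ) : Finset (List Bool) :=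
  B.image (fun h => act h (oo (n + 1)))

theorem DD_lev (B : Finset G) (n : ℕ) : DD B n ⊆ lev (n + 1) := by
  intro u hu
  obtain ⟨h, _, rfl⟩ := Finset.mem_image.1 hu
  rw [mem_lev, act_length, zz_length]

theorem EE_lev (B : Finset G) (n : ℕ) : EE B n ⊆ lev (n + 1) := by
  intro u hu
  obtain ⟨h, _, rfl⟩ := Finset.mem_image.1 hu
  rw [mem_lev, act_length, oo_length]

theorem act_single (g : G) (x : Bool) : ∃ y : Bool, act g [x] = [y] := by
  have h := act_length g [x]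
  match act g [x], h with
  | [y], _ => exact ⟨y, rfl⟩

theorem child_EE (B : Finset G) (n : ℕ) : child (EE B n) = DD B (n + 1) ∪ EE B (n + 1) := by
  ext u
  rw [mem_child', Finset.mem_union]
  constructor
  · rintro ⟨v, hv, x, rfl⟩
    obtain ⟨h, hh, rfl⟩ := Finset.mem_image.1 hv
    -- find the letter mapped to `x`
    obtain ⟨y, hy⟩ := act_single (sec h (oo (n + 1)))⁻¹ x
    have h1 : act (sec h (oo (n + 1))) [y] = [x] := by rw [← hy, act_act_inv]
    have h2 : act h (oo (n + 1) ++ [y]) = act h (oo (n + 1)) ++ [x] := by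
      rw [act_append, h1]
    rcases y with _ | _
    · left
      exact Finset.mem_image.2 ⟨h, hh, by rw [zz_eq, h2]⟩
    · right
      exact Finset.mem_image.2 ⟨h, hh, by rw [oo_succ (n + 1), h2]⟩
  · rintro (hu | hu)
    · obtain ⟨h, hh, rfl⟩ := Finset.mem_image.1 hu
      obtain ⟨y, hy⟩ := act_single (sec h (oo (n + 1))) false
      refine ⟨act h (oo (n + 1)), Finset.mem_image.2 ⟨h, hh, rfl⟩, y, ?_⟩
      show act h (zz (n + 1)) = _
      rw [zz_eq, act_append, hy]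
    · obtain ⟨h, hh, rfl⟩ := Finset.mem_image.1 hu
      obtain ⟨y, hy⟩ := act_single (sec h (oo (n + 1))) true
      refine ⟨act h (oo (n + 1)), Finset.mem_image.2 ⟨h, hh, rfl⟩, y, ?_⟩
      show act h (oo (n + 1 + 1)) = _
      rw [oo_succ (n + 1), act_append, hy]

theorem localization (hS : Cuntz S) (F : Finset G) (c : G → ℂ) (C : ℝ) (hC : 0 ≤ C)
    (H : ∀ n, ∀ W ⊆ lev n, (∀ v ∈ W, ∀ g ∈ F, sec g v = 1) → ∀ η : List Bool → ℂ,
      ‖TT F c * ∑ v ∈ W, η v • Sw S v‖ ^ 2 ≤ C ^ 2 * ∑ v ∈ W, ‖η v‖ ^ 2) :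
    ‖TT F c‖ ≤ Real.sqrt 2 * C := by
  classical
  have HV : ∀ n, ∀ W ⊆ lev n, (∀ v ∈ W, ∀ g ∈ F, sec g v = 1) → ∀ f : L2,
      ‖TT F c (PW S W f)‖ ≤ C * ‖PW S W f‖ := fun n W hW hg f =>
    vector_bound hS hC hW hg (H n W hW hg) f
  have HV2 : ∀ n, ∀ W ⊆ lev n, (∀ v ∈ W, ∀ g ∈ F, sec g v = 1) → ∀ f : L2,
      ‖TT F c (PW S W f)‖ ^ 2 ≤ C ^ 2 * ‖PW S W f‖ ^ 2 := fun n W hW hg f => by
    rw [← mul_pow]
    exact pow_le_pow_left₀ (norm_nonneg _) (HV n W hW hg f) 2
  obtain ⟨B, hB⟩ := exists_near F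
  -- the ends are far from each other
  obtain ⟨n₀, hn₀⟩ := exists_far
    (((insert 1 F ×ˢ B) ×ˢ (insert 1 F ×ˢ B)).image
      (fun p => (p.1.1 * p.1.2)⁻¹ * (p.2.1 * p.2.2)))
  have hfar : ∀ n ≥ n₀, ∀ g ∈ insert 1 F, ∀ g' ∈ insert 1 F,
      Disjoint ((DD B n).image (act g)) ((EE B n).image (act g')) := by
    intro n hn g hg g' hg'
    rw [Finset.disjoint_left]
    intro u h1 h2
    obtain ⟨v, hv, rfl⟩ := Finset.mem_image.1 h1
    obtain ⟨w, hw, e⟩ := Finset.mem_image.1 h2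
    obtain ⟨h, hh, rfl⟩ := Finset.mem_image.1 hv
    obtain ⟨h', hh', rfl⟩ := Finset.mem_image.1 hw
    apply hn₀ n hn ((g' * h')⁻¹ * (g * h))
    · exact Finset.mem_image.2 ⟨((g', h'), (g, h)), Finset.mem_product.2
        ⟨Finset.mem_product.2 ⟨hg', hh'⟩, Finset.mem_product.2 ⟨hg, hh⟩⟩, rfl⟩
    · rw [act_mul, act_mul g h, ← e, ← act_mul g' h', act_inv_act]
  have hDE : ∀ n ≥ n₀, Disjoint (DD B n) (EE B n) := by
    intro n hn
    have := hfar n hn 1 (Finset.mem_insert_self _ _) 1 (Finset.mem_insert_self _ _)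
    have h1 : ∀ W : Finset (List Bool), W.image (act 1) = W := fun W => by
      have : (act 1 : List Bool → List Bool) = id := funext act_one
      rw [this, Finset.image_id]
    rwa [h1, h1] at this
  -- the words near `1ⁿ0` have good extensions
  have hDgood : ∀ n ≥ n₀, ∀ f : L2,
      ‖TT F c (PW S (DD B n) f)‖ ^ 2 ≤ C ^ 2 * ‖PW S (DD B n) f‖ ^ 2 := by
    intro n hn f
    rw [← PW_child hS (DD B n)]
    apply HV2 (n + 2)
    · intro u hu
      obtain ⟨v, hv, x, rfl⟩ := mem_child'.1 hu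
      have := mem_lev.1 (DD_lev B n hv)
      rw [mem_lev]
      simp [this]
    · intro u hu g hg
      by_contra hne
      obtain ⟨v, hv, x, rfl⟩ := mem_child'.1 hu
      have hvl := mem_lev.1 (DD_lev B n hv)
      obtain ⟨h, hh, hz⟩ := hB g hg (n + 1) (v ++ [x]) (by simp [hvl]) hne
      have hmem : v ++ [x] ∈ child (EE B n) := by
        rw [child_EE, Finset.mem_union]
        rcases hz with hz | hz
        · left; rw [hz]; exact Finset.mem_image.2 ⟨h, hh, rfl⟩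
        · right; rw [hz]; exact Finset.mem_image.2 ⟨h, hh, rfl⟩
      exact (Finset.disjoint_left.1 (hDE n hn)) hv (mem_child.1 hmem)
  -- iteration
  have hsplit : ∀ n ≥ n₀, ∀ f : L2, PW S (EE B n) f =
      PW S (DD B (n + 1)) f + PW S (EE B (n + 1)) f := by
    intro n hn f
    rw [← PW_child hS (EE B n), child_EE, PW_union (hDE (n + 1) (by omega))]
    rfl
  have hpyth : ∀ n ≥ n₀, ∀ f : L2, ‖PW S (DD B n) f + PW S (EE B n) f‖ ^ 2 =
      ‖PW S (DD B n) f‖ ^ 2 + ‖PW S (EE B n) f‖ ^ 2 := fun n hn f =>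
    pyth (PW_inner_zero hS (DD_lev B n) (EE_lev B n) (hDE n hn) f f)
  have hTpyth : ∀ n ≥ n₀, ∀ f : L2, ‖TT F c (PW S (DD B n) f) + TT F c (PW S (EE B n) f)‖ ^ 2 =
      ‖TT F c (PW S (DD B n) f)‖ ^ 2 + ‖TT F c (PW S (EE B n) f)‖ ^ 2 := fun n hn f =>
    pyth (TT_inner_zero hS F c (DD_lev B n) (EE_lev B n)
      (fun g hg g' hg' => hfar n hn g (Finset.mem_insert_of_mem hg) g'
        (Finset.mem_insert_of_mem hg')) f f)
  have hiter : ∀ J : ℕ, ∀ n ≥ n₀, ∀ f : L2, ‖TT F c (PW S (EE B n) f)‖ ^ 2 ≤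
      C ^ 2 * ‖PW S (EE B n) f‖ ^ 2 + ‖TT F c‖ ^ 2 * ‖PW S (EE B (n + J)) f‖ ^ 2 := by
    intro J
    induction J with
    | zero =>
      intro n hn f
      have h1 : ‖TT F c (PW S (EE B n) f)‖ ^ 2 ≤ (‖TT F c‖ * ‖PW S (EE B n) f‖) ^ 2 :=
        pow_le_pow_left₀ (norm_nonneg _) (ContinuousLinearMap.le_opNorm _ _) 2
      rw [mul_pow] at h1
      have h2 : 0 ≤ C ^ 2 * ‖PW S (EE B n) f‖ ^ 2 := by positivity
      simpa using h1.trans (le_add_of_nonneg_left h2)
    | succ J ih =>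
      intro n hn f
      have h1 := ih (n + 1) (by omega) f
      have h2 := hDgood (n + 1) (by omega) f
      have h3 := hTpyth (n + 1) (by omega) f
      have h4 := hpyth (n + 1) (by omega) f
      have h5 : n + 1 + J = n + (J + 1) := by omega
      rw [h5] at h1
      rw [hsplit n hn f, map_add, h3, h4]
      linarith
  have hlim : ∀ f : L2, Filter.Tendsto (fun n => ‖PW S (EE B n) f‖) Filter.atTop (nhds 0) := by
    intro f
    have h1 : ∀ n, ‖PW S (EE B n) f‖ ≤ ∑ h ∈ B, ‖Pw S (act h (oo (n + 1))) f‖ := by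
      intro n
      unfold PW EE
      rw [sum_apply]
      refine (norm_sum_le _ _).trans ?_
      exact Finset.sum_image_le_of_nonneg (fun _ _ => norm_nonneg _)
    refine squeeze_zero (fun n => norm_nonneg _) h1 ?_
    have h2 : Filter.Tendsto (fun n => ∑ h ∈ B, ‖Pw S (act h (oo (n + 1))) f‖) Filter.atTop
        (nhds (∑ h ∈ B, 0)) := tendsto_finsetSum _ (fun h _ =>
      (tendsto_end hS h f).comp (Filter.tendsto_add_atTop_nat 1))
    simpa using h2
  have hE : ∀ n ≥ n₀, ∀ f : L2,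
      ‖TT F c (PW S (EE B n) f)‖ ^ 2 ≤ C ^ 2 * ‖PW S (EE B n) f‖ ^ 2 := by
    intro n hn f
    have h1 : Filter.Tendsto (fun J => C ^ 2 * ‖PW S (EE B n) f‖ ^ 2 +
        ‖TT F c‖ ^ 2 * ‖PW S (EE B (n + J)) f‖ ^ 2) Filter.atTop
        (nhds (C ^ 2 * ‖PW S (EE B n) f‖ ^ 2 + ‖TT F c‖ ^ 2 * 0 ^ 2)) := by
      apply Filter.Tendsto.const_add
      apply Filter.Tendsto.const_mul
      apply Filter.Tendsto.pow
      have := (hlim f).comp (Filter.tendsto_add_atTop_nat n)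
      refine this.congr (fun J => ?_)
      simp [add_comm]
    have h2 := ge_of_tendsto' h1 (fun J => hiter J n hn f)
    simpa using h2
  -- conclusion
  refine ContinuousLinearMap.opNorm_le_bound _ (by positivity) (fun f => ?_)
  set V := lev (n₀ + 1) \ (DD B n₀ ∪ EE B n₀) with hV
  have hsub : DD B n₀ ∪ EE B n₀ ⊆ lev (n₀ + 1) :=
    Finset.union_subset (DD_lev B n₀) (EE_lev B n₀)
  have hVd : Disjoint V (DD B n₀ ∪ EE B n₀) := Finset.sdiff_disjoint
  have hf : f = PW S V f + PW S (DD B n₀ ∪ EE B n₀) f := by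
    have h1 : V ∪ (DD B n₀ ∪ EE B n₀) = lev (n₀ + 1) := Finset.sdiff_union_of_subset hsub
    have h2 := PW_lev hS (n₀ + 1)
    rw [← h1, PW_union hVd] at h2
    have h3 := congrArg (fun A : L2 →L[ℂ] L2 => A f) h2
    exact h3.symm
  have hVgood : ‖TT F c (PW S V f)‖ ≤ C * ‖PW S V f‖ := by
    apply HV (n₀ + 1) V Finset.sdiff_subset
    intro v hv g hg
    by_contra hne
    rw [hV, Finset.mem_sdiff, Finset.mem_union, not_or] at hv
    obtain ⟨h, hh, hz⟩ := hB g hg n₀ v (mem_lev.1 hv.1) hne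
    rcases hz with hz | hz
    · exact hv.2.1 (Finset.mem_image.2 ⟨h, hh, hz.symm⟩)
    · exact hv.2.2 (Finset.mem_image.2 ⟨h, hh, hz.symm⟩)
  have hDEn : ‖TT F c (PW S (DD B n₀ ∪ EE B n₀) f)‖ ≤ C * ‖PW S (DD B n₀ ∪ EE B n₀) f‖ := by
    rw [PW_union (hDE n₀ le_rfl)]
    show ‖TT F c (PW S (DD B n₀) f + PW S (EE B n₀) f)‖ ≤
      C * ‖PW S (DD B n₀) f + PW S (EE B n₀) f‖
    apply le_of_sq_le_sq _ (by positivity)
    rw [map_add, hTpyth n₀ le_rfl, mul_pow, hpyth n₀ le_rfl, mul_add]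
    exact add_le_add (hDgood n₀ le_rfl f) (hE n₀ le_rfl f)
  have hsum : ‖f‖ ^ 2 = ‖PW S V f‖ ^ 2 + ‖PW S (DD B n₀ ∪ EE B n₀) f‖ ^ 2 := by
    conv_lhs => rw [hf]
    exact pyth (PW_inner_zero hS Finset.sdiff_subset hsub hVd f f)
  have hT : ‖TT F c f‖ ≤ C * (‖PW S V f‖ + ‖PW S (DD B n₀ ∪ EE B n₀) f‖) := by
    conv_lhs => rw [hf]
    rw [map_add, mul_add]
    exact (norm_add_le _ _).trans (add_le_add hVgood hDEn)
  have hsq : ‖PW S V f‖ + ‖PW S (DD B n₀ ∪ EE B n₀) f‖ ≤ Real.sqrt 2 * ‖f‖ := by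
    apply le_of_sq_le_sq _ (by positivity)
    rw [mul_pow, Real.sq_sqrt (by norm_num), hsum]
    nlinarith [sq_nonneg (‖PW S V f‖ - ‖PW S (DD B n₀ ∪ EE B n₀) f‖)]
  calc ‖TT F c f‖ ≤ C * (‖PW S V f‖ + ‖PW S (DD B n₀ ∪ EE B n₀) f‖) := hT
    _ ≤ C * (Real.sqrt 2 * ‖f‖) := mul_le_mul_of_nonneg_left hsq hC
    _ = Real.sqrt 2 * C * ‖f‖ := by ring

end Pool.Agent.Helper684.Koop
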