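import Pool.Agent.Helper684.Koop.Grp

/-!
The quotient by `(ab)²` is finite. (Contributed by helper68.)
-/

namespace Pool.Agent.Helper684.Koop

open MeasureTheory


theorem finite_of_rel {Q : Type*} [Group Q] (A B C D : Q) (hA : A ^ 2 = 1) (hB : B ^ 2 = 1)
    (hD : D ^ 2 = 1) (hAD : (A * D) ^ 4 = 1) (hAB : A * B = B * A) (hBD : B * D = C)
    (hDB : D * B = C) (hcl : Subgroup.closure ({A, B, C, D} : Set Q) = ⊤) : Finite Q := by
  have hA' : A⁻¹ = A := inv_eq_of_mul_eq_one_left (by rw [← pow_two]; exact hA)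
  have hB' : B⁻¹ = B := inv_eq_of_mul_eq_one_left (by rw [← pow_two]; exact hB)
  have hD' : D⁻¹ = D := inv_eq_of_mul_eq_one_left (by rw [← pow_two]; exact hD)
  have hDx : D = A * (A * D) := by rw [← mul_assoc, ← pow_two, hA, one_mul]
  have hBx : Commute B (A * D) := by
    have h1 : Commute B A := hAB.symm
    have h2 : Commute B D := hBD.trans hDB.symm
    exact h1.mul_right h2
  have hAx : A * (A * D) * A⁻¹ = (A * D)⁻¹ := by
    rw [← hDx, mul_inv_rev, hD']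
  generalize A * D = x at *
  set S : Set Q := {q | ∃ i j k : ℤ, q = B ^ i * x ^ j * A ^ k} with hS
  have hSB : ∀ q ∈ S, B * q ∈ S := by
    rintro q ⟨i, j, k, rfl⟩
    exact ⟨i + 1, j, k, by rw [add_comm i 1, zpow_add, zpow_one]; simp only [mul_assoc]⟩
  have hSA : ∀ q ∈ S, A * q ∈ S := by
    rintro q ⟨i, j, k, rfl⟩
    refine ⟨i, -j, k + 1, ?_⟩
    have h1 : Commute A (B ^ i) := Commute.zpow_right hAB i
    have h2 : A * x ^ j = x ^ (-j) * A := by
      have h3 : A * x ^ j * A⁻¹ = x ^ (-j) := by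
        rw [← conj_zpow, hAx, inv_zpow, zpow_neg]
      rw [← h3]; group
    calc A * (B ^ i * x ^ j * A ^ k) = (A * B ^ i) * x ^ j * A ^ k := by simp only [mul_assoc]
      _ = B ^ i * (A * x ^ j) * A ^ k := by rw [h1.eq]; simp only [mul_assoc]
      _ = B ^ i * x ^ (-j) * A ^ (k + 1) := by
        rw [h2, add_comm k 1, zpow_add, zpow_one]; simp only [mul_assoc]
  have hSx : ∀ q ∈ S, x * q ∈ S := by
    rintro q ⟨i, j, k, rfl⟩
    refine ⟨i, j + 1, k, ?_⟩
    have h1 : x * B ^ i = B ^ i * x := (hBx.zpow_left i).symm.eq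
    calc x * (B ^ i * x ^ j * A ^ k) = (x * B ^ i) * x ^ j * A ^ k := by simp only [mul_assoc]
      _ = B ^ i * x ^ (j + 1) * A ^ k := by
        rw [h1, add_comm j 1, zpow_add, zpow_one]; simp only [mul_assoc]
  have hSD : ∀ q ∈ S, D * q ∈ S := by
    intro q hq
    rw [hDx, mul_assoc]
    exact hSA _ (hSx _ hq)
  have hSC : ∀ q ∈ S, C * q ∈ S := by
    intro q hq
    rw [← hBD, mul_assoc]
    exact hSB _ (hSD _ hq)
  have hC' : C⁻¹ = C := by rw [← hBD, mul_inv_rev, hD', hB', hDB, hBD]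
  have hall : ∀ q : Q, q ∈ S := by
    intro q
    have hq : q ∈ Subgroup.closure ({A, B, C, D} : Set Q) := by rw [hcl]; trivial
    induction hq using Subgroup.closure_induction_left with
    | one => exact ⟨0, 0, 0, by simp⟩
    | mul_left y hy z _ ih =>
      simp only [Set.mem_insert_iff, Set.mem_singleton_iff] at hy
      rcases hy with rfl | rfl | rfl | rfl
      · exact hSA _ ih
      · exact hSB _ ih
      · exact hSC _ ih
      · exact hSD _ ih
    | inv_mul_cancel y hy z _ ih =>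
      simp only [Set.mem_insert_iff, Set.mem_singleton_iff] at hy
      rcases hy with rfl | rfl | rfl | rfl
      · rw [hA']; exact hSA _ ih
      · rw [hB']; exact hSB _ ih
      · rw [hC']; exact hSC _ ih
      · rw [hD']; exact hSD _ ih
  have fin : ∀ (y : Q) (n : ℕ), 0 < n → y ^ n = 1 → ((Subgroup.zpowers y : Subgroup Q) : Set Q).Finite :=
    fun y n hn hy => finite_zpowers.2 (isOfFinOrder_iff_pow_eq_one.2 ⟨n, hn, hy⟩)
  have hfin : S.Finite := by
    refine (((fin B 2 (by norm_num) hB).mul (fin x 4 (by norm_num) hAD)).mul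
      (fin A 2 (by norm_num) hA)).subset ?_
    rintro q ⟨i, j, k, rfl⟩
    exact Set.mul_mem_mul (Set.mul_mem_mul (Subgroup.mem_zpowers_iff.2 ⟨i, rfl⟩)
      (Subgroup.mem_zpowers_iff.2 ⟨j, rfl⟩)) (Subgroup.mem_zpowers_iff.2 ⟨k, rfl⟩)
  exact Set.finite_univ_iff.1 (hfin.subset (fun q _ => hall q))

theorem closure_gens : Subgroup.closure ({⟨a, a_mem⟩, ⟨b, b_mem⟩, ⟨c, c_mem⟩, ⟨d, d_mem⟩} : Set G)
    = ⊤ := by
  have h := Subgroup.closure_closure_coe_preimage (k := ({a, b, c, d} : Set (Equiv.Perm Bd)))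
  refine Eq.trans ?_ h
  refine congrArg _ ?_
  ext ⟨x, hx⟩
  simp only [Set.mem_insert_iff, Set.mem_singleton_iff, Subtype.mk.injEq]
  exact Iff.rfl

/-- Every normal subgroup containing `(ab)²` has finite index. -/
theorem finite_quotient (N : Subgroup G) [N.Normal] (h : (⟨k0, k0_memG⟩ : G) ∈ N) :
    Finite (G ⧸ N) := by
  let π : G →* G ⧸ N := QuotientGroup.mk' N
  have hπ : ∀ x y : G, (x : Equiv.Perm Bd) = y → π x = π y := fun x y e => by
    rw [Subtype.ext e]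
  have eA : (π ⟨a, a_mem⟩) ^ 2 = 1 := by
    rw [← map_pow, ← map_one π]
    exact hπ _ _ (by rw [Subgroup.coe_pow, pow_two]; exact a_sq)
  have eB : (π ⟨b, b_mem⟩) ^ 2 = 1 := by
    rw [← map_pow, ← map_one π]
    exact hπ _ _ (by rw [Subgroup.coe_pow, pow_two]; exact b_sq)
  have eD : (π ⟨d, d_mem⟩) ^ 2 = 1 := by
    rw [← map_pow, ← map_one π]
    exact hπ _ _ (by rw [Subgroup.coe_pow, pow_two]; exact d_sq)
  have eAD : (π ⟨a, a_mem⟩ * π ⟨d, d_mem⟩) ^ 4 = 1 := by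
    rw [← map_mul, ← map_pow, ← map_one π]
    exact hπ _ _ (by rw [Subgroup.coe_pow]; exact ad_four)
  have eBD : π ⟨b, b_mem⟩ * π ⟨d, d_mem⟩ = π ⟨c, c_mem⟩ := by
    rw [← map_mul]
    exact hπ _ _ b_mul_d
  have eDB : π ⟨d, d_mem⟩ * π ⟨b, b_mem⟩ = π ⟨c, c_mem⟩ := by
    rw [← map_mul]
    exact hπ _ _ d_mul_b
  have eAB0 : (π ⟨a, a_mem⟩ * π ⟨b, b_mem⟩) ^ 2 = 1 := by
    rw [← map_mul, ← map_pow]
    exact (QuotientGroup.eq_one_iff _).2 h
  have eAB : π ⟨a, a_mem⟩ * π ⟨b, b_mem⟩ = π ⟨b, b_mem⟩ * π ⟨a, a_mem⟩ := by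
    have hA' : (π ⟨a, a_mem⟩)⁻¹ = π ⟨a, a_mem⟩ :=
      inv_eq_of_mul_eq_one_left (by rw [← pow_two]; exact eA)
    have hB' : (π ⟨b, b_mem⟩)⁻¹ = π ⟨b, b_mem⟩ :=
      inv_eq_of_mul_eq_one_left (by rw [← pow_two]; exact eB)
    have h1 : (π ⟨a, a_mem⟩ * π ⟨b, b_mem⟩)⁻¹ = π ⟨a, a_mem⟩ * π ⟨b, b_mem⟩ :=
      inv_eq_of_mul_eq_one_left (by rw [← pow_two]; exact eAB0)
    rw [← h1, mul_inv_rev, hA', hB']
  refine finite_of_rel (π ⟨a, a_mem⟩) (π ⟨b, b_mem⟩) (π ⟨c, c_mem⟩) (π ⟨d, d_mem⟩) eA eB eD eAD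
    eAB eBD eDB ?_
  have h2 := congrArg (Subgroup.map π) closure_gens
  rw [MonoidHom.map_closure, Subgroup.map_top_of_surjective π (QuotientGroup.mk'_surjective N)] at h2
  rw [← h2]
  congr 1
  simp only [Set.image_insert_eq, Set.image_singleton]



end Pool.Agent.Helper684.Koop
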