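import Pool.Agent.Helper684.Koop.Local
import Pool.Agent.Helper684.Koop.Quo
import Pool.Agent.Helper684.Koop.Idl

/-!
Every quotient of the Koopman C*-algebra of the Grigorchuk group by a nonzero closed two-sided
ideal is finite dimensional.
-/

open MeasureTheory ContinuousLinearMap

namespace Pool.Agent.Helper684.Koop

variable {S : Bool → (L2 →L[ℂ] L2)}

theorem rho_mem (g : G) : rho g ∈ CStarRho := by
  apply Subalgebra.le_topologicalClosure
  exact ⟨MonoidAlgebra.of ℂ G g, by simp⟩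

/-- Membership of an operator in an ideal of the C*-algebra. -/
def InI (I : Ideal CStarRho) (X : L2 →L[ℂ] L2) : Prop :=
  ∃ h : X ∈ CStarRho, (⟨X, h⟩ : CStarRho) ∈ I

theorem InI.mem {I : Ideal CStarRho} {X : L2 →L[ℂ] L2} (h : InI I X) : X ∈ CStarRho := h.1

theorem InI.add {I : Ideal CStarRho} {X Y : L2 →L[ℂ] L2} (hX : InI I X) (hY : InI I Y) :
    InI I (X + Y) := ⟨CStarRho.add_mem hX.1 hY.1, I.add_mem hX.2 hY.2⟩

theorem InI.neg {I : Ideal CStarRho} {X : L2 →L[ℂ] L2} (hX : InI I X) :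
    InI I (-X) := ⟨CStarRho.neg_mem hX.1, I.neg_mem hX.2⟩

theorem InI.zero (I : Ideal CStarRho) : InI I 0 := ⟨CStarRho.zero_mem, I.zero_mem⟩

theorem InI.sum {ι : Type*} {I : Ideal CStarRho} {s : Finset ι} {X : ι → (L2 →L[ℂ] L2)}
    (h : ∀ i ∈ s, InI I (X i)) : InI I (∑ i ∈ s, X i) := by
  classical
  induction s using Finset.induction_on with
  | empty => simpa using InI.zero I
  | insert i s hi ih =>
    rw [Finset.sum_insert hi]
    exact (h i (Finset.mem_insert_self _ _)).add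
      (ih (fun j hj => h j (Finset.mem_insert_of_mem hj)))

theorem InI.mul_left {I : Ideal CStarRho} {X Y : L2 →L[ℂ] L2} (hY : Y ∈ CStarRho)
    (hX : InI I X) : InI I (Y * X) :=
  ⟨CStarRho.mul_mem hY hX.1, I.mul_mem_left ⟨Y, hY⟩ hX.2⟩

theorem InI.mul_right {I : Ideal CStarRho} [I.IsTwoSided] {X Y : L2 →L[ℂ] L2} (hX : InI I X)
    (hY : Y ∈ CStarRho) : InI I (X * Y) :=
  ⟨CStarRho.mul_mem hX.1 hY, I.mul_mem_right ⟨Y, hY⟩ hX.2⟩

theorem InI.smul {I : Ideal CStarRho} {X : L2 →L[ℂ] L2} (c : ℂ) (hX : InI I X) :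
    InI I (c • X) := by
  have h := hX.mul_left (CStarRho.algebraMap_mem c)
  rwa [Algebra.algebraMap_eq_smul_one, smul_one_mul] at h

/-- The element `(ab)²` of the group. -/
def kk : G := ⟨k0, k0_memG⟩

theorem kk_pow (i : ℕ) : ((kk ^ i : G) : Equiv.Perm Bd) = k0 ^ i := rfl

theorem kk_pow_memK (i : ℕ) : k0 ^ i ∈ K := K.pow_mem k0_memK i

theorem kk_pow_eight : kk ^ 8 = 1 := Subtype.ext k0_pow

/-- Corner elements `S_w ρ(r) (1 - ρ(k)) S_u*` with `k ∈ K` are in the C*-algebra. -/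
theorem corner_mem (hS : Cuntz S) {u w : List Bool} (h : u.length = w.length) (r : G)
    {k : Equiv.Perm Bd} (hk : k ∈ K) :
    Sw S w * (rho r * (1 - rho ⟨k, K_le hk⟩)) * adjoint (Sw S u) ∈ CStarRho := by
  obtain ⟨m, h1, h2⟩ := exists_sec u w h r
  have e : Sw S w * (rho r * (1 - rho ⟨k, K_le hk⟩)) * adjoint (Sw S u) =
      rho m * (1 - rho ⟨insV u k, K_le (insV_mem u hk)⟩) := by
    rw [rho_insV hS u k hk]
    have := rho_mul_Sw hS u m
    rw [h1, h2] at this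
    calc Sw S w * (rho r * (1 - rho ⟨k, K_le hk⟩)) * adjoint (Sw S u) =
        (Sw S w * rho r) * (1 - rho ⟨k, K_le hk⟩) * adjoint (Sw S u) := by
          simp only [mul_assoc]
      _ = _ := by rw [← this]; simp only [mul_assoc]
  rw [e]
  exact CStarRho.mul_mem (rho_mem m) (CStarRho.sub_mem CStarRho.one_mem (rho_mem _))

/-- The average of the powers of `ρ((ab)²)`. -/
noncomputable def EEop : L2 →L[ℂ] L2 := (8 : ℂ)⁻¹ • ∑ i ∈ Finset.range 8, rho (kk ^ i)

/-- The complementary idempotent. -/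
noncomputable def QQ : L2 →L[ℂ] L2 := 1 - EEop

theorem sum_shift {M : Type*} [AddCommGroup M] (f : ℕ → M) (n : ℕ) (h : f n = f 0) :
    ∑ i ∈ Finset.range n, f (i + 1) = ∑ i ∈ Finset.range n, f i := by
  have h1 := Finset.sum_range_succ f n
  rw [Finset.sum_range_succ', h] at h1
  exact add_right_cancel h1

theorem kk_EEop : rho kk * EEop = EEop := by
  unfold EEop
  rw [mul_smul_comm, Finset.mul_sum]
  refine congrArg (fun X => (8 : ℂ)⁻¹ • X) ?_
  have h1 : ∀ i, rho kk * rho (kk ^ i) = rho (kk ^ (i + 1)) := fun i => by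
    rw [← map_mul, ← pow_succ']
  have h2 : rho (kk ^ 8) = rho (kk ^ 0) := by rw [kk_pow_eight, pow_zero]
  have h3 : ∀ f : ℕ → (L2 →L[ℂ] L2), (∀ i, f i = rho (kk ^ i)) → f 8 = f 0 →
      ∑ i ∈ Finset.range 8, rho kk * rho (kk ^ i) = ∑ i ∈ Finset.range 8, rho (kk ^ i) := by
    intro f hf h80
    rw [Finset.sum_congr rfl (fun i _ => (h1 i).trans (hf (i + 1)).symm),
      Finset.sum_congr rfl (fun i _ => (hf i).symm)]
    exact sum_shift f 8 h80
  exact h3 (fun i => rho (kk ^ i)) (fun i => rfl) h2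

theorem kk_pow_EEop (i : ℕ) : rho (kk ^ i) * EEop = EEop := by
  induction i with
  | zero => rw [pow_zero, map_one, one_mul]
  | succ i ih => rw [pow_succ, map_mul, mul_assoc, kk_EEop, ih]

theorem EEop_sq : EEop * EEop = EEop := by
  have h : EEop * EEop = (8 : ℂ)⁻¹ • ∑ i ∈ Finset.range 8, rho (kk ^ i) * EEop := by
    conv_lhs => rw [EEop]
    rw [smul_mul_assoc, Finset.sum_mul]
    rfl
  rw [h, Finset.sum_congr rfl (fun i _ => kk_pow_EEop i), Finset.sum_const, Finset.card_range,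
    ← Nat.cast_smul_eq_nsmul ℂ, smul_smul]
  norm_num

theorem QQ_sq : QQ * QQ = QQ := by
  unfold QQ
  rw [mul_sub, mul_one, sub_mul, one_mul, EEop_sq]
  abel

theorem kk_QQ : (1 - rho kk) * QQ = 1 - rho kk := by
  unfold QQ
  rw [mul_sub, mul_one, sub_mul, one_mul, kk_EEop, sub_self, sub_zero]

theorem QQ_eq : QQ = (8 : ℂ)⁻¹ • ∑ i ∈ Finset.range 8, (1 - rho (kk ^ i)) := by
  unfold QQ EEop
  rw [Finset.sum_sub_distrib, smul_sub, Finset.sum_const, Finset.card_range,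
    ← Nat.cast_smul_eq_nsmul ℂ, smul_smul]
  norm_num

theorem norm_rho_le (g : G) : ‖rho g‖ ≤ 1 :=
  ContinuousLinearMap.opNorm_le_bound _ zero_le_one (fun f => by rw [rho_norm, one_mul])

theorem norm_EEop_le : ‖EEop‖ ≤ 1 := by
  refine ContinuousLinearMap.opNorm_le_bound _ zero_le_one (fun f => ?_)
  have h1 : EEop f = (8 : ℂ)⁻¹ • ∑ i ∈ Finset.range 8, rho (kk ^ i) f := by
    unfold EEop
    rw [smul_apply, sum_apply]
  rw [h1, norm_smul]
  calc ‖(8 : ℂ)⁻¹‖ * ‖∑ i ∈ Finset.range 8, rho (kk ^ i) f‖ ≤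
      ‖(8 : ℂ)⁻¹‖ * ∑ i ∈ Finset.range 8, ‖f‖ :=
        mul_le_mul_of_nonneg_left ((norm_sum_le _ _).trans
          (Finset.sum_le_sum (fun i _ => (rho_norm _ _).le))) (norm_nonneg _)
    _ = 1 * ‖f‖ := by simp

theorem norm_QQ_le : ‖QQ‖ ≤ 2 := by
  unfold QQ
  refine (norm_sub_le _ _).trans ?_
  have h1 : ‖(1 : L2 →L[ℂ] L2)‖ ≤ 1 := by
    have := norm_rho_le 1
    rwa [map_one] at this
  linarith [norm_EEop_le]

theorem corner_QQ_mem (hS : Cuntz S) {u w : List Bool} (h : u.length = w.length) :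
    Sw S w * QQ * adjoint (Sw S u) ∈ CStarRho := by
  rw [QQ_eq, mul_smul_comm, smul_mul_assoc, Finset.mul_sum, Finset.sum_mul]
  apply CStarRho.smul_mem
  apply CStarRho.sum_mem
  intro i _
  have := corner_mem hS h 1 (kk_pow_memK i)
  rw [map_one, one_mul] at this
  exact this

end Pool.Agent.Helper684.Koop
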