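import Pool.Agent.Helper684.Koop.Act

/-!
Sections near the ends. (Contributed by helper886.)
-/

namespace Pool.Agent.Helper684.Koop

/-- `1ⁿ` -/
def oo (n : ℕ) : List Bool := List.replicate n true
/-- `1ⁿ0` -/
def zz (n : ℕ) : List Bool := List.replicate n true ++ [false]

/-- generators as elements of `G` -/
def gA : G := ⟨a, a_mem⟩
/-- generators as elements of `G` -/
def gB : G := ⟨b, b_mem⟩
/-- generators as elements of `G` -/
def gC : G := ⟨c, c_mem⟩
/-- generators as elements of `G` -/
def gD : G := ⟨d, d_mem⟩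

theorem sec_gA (x : Bool) (v : List Bool) : sec gA (x :: v) = 1 :=
  (act_unique (g := gA) (v := x :: v) (u := (!x) :: v) (h := 1) rfl
    (fun w => a_cons x (app v w))).2

theorem sec_gB_false (v : List Bool) : sec gB (false :: v) = sec gA v :=
  (act_unique (g := gB) (v := false :: v) (u := false :: act gA v) (h := sec gA v) (by simp)
    (fun w => by
      show b (cons false (app v w)) = cons false (app (act gA v) _)
      rw [b_false, ← act_spec]; rfl)).2

theorem sec_gB_true (v : List Bool) : sec gB (true :: v) = sec gC v :=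
  (act_unique (g := gB) (v := true :: v) (u := true :: act gC v) (h := sec gC v) (by simp)
    (fun w => by
      show b (cons true (app v w)) = cons true (app (act gC v) _)
      rw [b_true, ← act_spec]; rfl)).2

theorem sec_gC_false (v : List Bool) : sec gC (false :: v) = sec gA v :=
  (act_unique (g := gC) (v := false :: v) (u := false :: act gA v) (h := sec gA v) (by simp)
    (fun w => by
      show c (cons false (app v w)) = cons false (app (act gA v) _)
      rw [c_false, ← act_spec]; rfl)).2

theorem sec_gC_true (v : List Bool) : sec gC (true :: v) = sec gD v :=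
  (act_unique (g := gC) (v := true :: v) (u := true :: act gD v) (h := sec gD v) (by simp)
    (fun w => by
      show c (cons true (app v w)) = cons true (app (act gD v) _)
      rw [c_true, ← act_spec]; rfl)).2

theorem sec_gD_false (v : List Bool) : sec gD (false :: v) = 1 :=
  (act_unique (g := gD) (v := false :: v) (u := false :: v) (h := 1) rfl
    (fun w => d_false (app v w))).2

theorem sec_gD_true (v : List Bool) : sec gD (true :: v) = sec gB v :=
  (act_unique (g := gD) (v := true :: v) (u := true :: act gB v) (h := sec gB v) (by simp)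
    (fun w => by
      show d (cons true (app v w)) = cons true (app (act gB v) _)
      rw [d_true, ← act_spec]; rfl)).2

theorem near_gen (n : ℕ) : ∀ v : List Bool, v.length = n + 1 →
    (sec gB v ≠ 1 ∨ sec gC v ≠ 1 ∨ sec gD v ≠ 1) → v = zz n ∨ v = oo (n + 1) := by
  induction n with
  | zero =>
    intro v hv _
    match v, hv with
    | [false], _ => left; rfl
    | [true], _ => right; rfl
  | succ n ih =>
    intro v hv h
    match v, hv with
    | false :: y :: w, hv =>
      exfalso
      rw [sec_gB_false, sec_gC_false, sec_gD_false, sec_gA] at h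
      simp at h
    | true :: w, hv =>
      rw [sec_gB_true, sec_gC_true, sec_gD_true] at h
      have hw : w.length = n + 1 := by simpa using hv
      rcases ih w hw (by tauto) with rfl | rfl
      · left; rfl
      · right; rfl

theorem near_one (g : Equiv.Perm Bd) (hg : g ∈ G) : ∃ B : Finset G, ∀ n : ℕ, ∀ v : List Bool,
    v.length = n + 1 → sec ⟨g, hg⟩ v ≠ 1 → ∃ h ∈ B, v = act h (zz n) ∨ v = act h (oo (n + 1)) := by
  classical
  induction hg using Subgroup.closure_induction with
  | mem g hg' =>
    simp only [Set.mem_insert_iff, Set.mem_singleton_iff] at hg'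
    refine ⟨{1}, fun n v hv hs => ⟨1, by simp, ?_⟩⟩
    rw [act_one, act_one]
    rcases hg' with rfl | rfl | rfl | rfl
    · exfalso
      match v, hv with
      | x :: w, _ => exact hs (sec_gA x w)
    · exact near_gen n v hv (Or.inl hs)
    · exact near_gen n v hv (Or.inr (Or.inl hs))
    · exact near_gen n v hv (Or.inr (Or.inr hs))
  | one =>
    exact ⟨∅, fun n v _ hs => absurd (sec_one v) hs⟩
  | mul g h hg hh ihg ihh =>
    obtain ⟨Bg, hBg⟩ := ihg
    obtain ⟨Bh, hBh⟩ := ihh
    refine ⟨Bh ∪ Bg.image (fun x => (⟨h, hh⟩ : G)⁻¹ * x), fun n v hv hs => ?_⟩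
    have e : sec (⟨g * h, G.mul_mem hg hh⟩ : G) v
        = sec ⟨g, hg⟩ (act ⟨h, hh⟩ v) * sec ⟨h, hh⟩ v := sec_mul ⟨g, hg⟩ ⟨h, hh⟩ v
    by_cases h1 : sec (⟨h, hh⟩ : G) v = 1
    · have h2 : sec (⟨g, hg⟩ : G) (act ⟨h, hh⟩ v) ≠ 1 := by
        intro h2
        exact hs (by rw [e, h1, h2, mul_one])
      obtain ⟨x, hx, hx'⟩ := hBg n _ (by rw [act_length, hv]) h2
      refine ⟨(⟨h, hh⟩ : G)⁻¹ * x, Finset.mem_union_right _ (Finset.mem_image_of_mem _ hx), ?_⟩
      rw [act_mul, act_mul]
      rcases hx' with hx' | hx'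
      · left; rw [← hx', act_inv_act]
      · right; rw [← hx', act_inv_act]
    · obtain ⟨x, hx, hx'⟩ := hBh n v hv h1
      exact ⟨x, Finset.mem_union_left _ hx, hx'⟩
  | inv g hg ih =>
    obtain ⟨Bg, hBg⟩ := ih
    refine ⟨Bg.image (fun x => (⟨g, hg⟩ : G) * x), fun n v hv hs => ?_⟩
    have e : sec (⟨g⁻¹, G.inv_mem hg⟩ : G) v = (sec ⟨g, hg⟩ (act (⟨g, hg⟩ : G)⁻¹ v))⁻¹ :=
      sec_inv ⟨g, hg⟩ v
    have h2 : sec (⟨g, hg⟩ : G) (act (⟨g, hg⟩ : G)⁻¹ v) ≠ 1 := by
      intro h2
      exact hs (by rw [e, h2, inv_one])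
    obtain ⟨x, hx, hx'⟩ := hBg n _ (by rw [act_length, hv]) h2
    refine ⟨(⟨g, hg⟩ : G) * x, Finset.mem_image_of_mem _ hx, ?_⟩
    rw [act_mul, act_mul]
    rcases hx' with hx' | hx'
    · left; rw [← hx', act_act_inv]
    · right; rw [← hx', act_act_inv]

/-- The words with nontrivial sections are near the two ends. -/
theorem exists_near (F : Finset G) : ∃ B : Finset G, ∀ g ∈ F, ∀ n : ℕ, ∀ v : List Bool,
    v.length = n + 1 → sec g v ≠ 1 → ∃ h ∈ B, v = act h (zz n) ∨ v = act h (oo (n + 1)) := by
  classical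
  choose B hB using fun g : G => near_one g.1 g.2
  refine ⟨F.biUnion B, fun g hg n v hv hs => ?_⟩
  obtain ⟨h, hh, hh'⟩ := hB g n v hv hs
  exact ⟨h, Finset.mem_biUnion.2 ⟨g, hg, hh⟩, hh'⟩

theorem far_unique (h : G) {n m : ℕ} (hnm : n < m) (hn : act h (zz n) = oo (n + 1))
    (hm : act h (zz m) = oo (m + 1)) : False := by
  have h1 : zz m = oo (n + 1) ++ (List.replicate (m - n - 1) true ++ [false]) := by
    unfold zz oo
    rw [← List.append_assoc, List.replicate_append_replicate]
    congr 2
    omega
  have h2 : oo (m + 1) = oo (n + 1) ++ oo (m - n) := by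
    unfold oo
    rw [List.replicate_append_replicate]
    congr 1
    omega
  rw [h1, act_append, h2] at hm
  have h3 := (List.append_inj hm (by simp)).1
  have h4 := act_injective h (h3.trans hn.symm)
  have h5 : oo (n + 1) = List.replicate n true ++ [true] := by
    unfold oo
    rw [List.replicate_succ']
  rw [h5] at h4
  unfold zz at h4
  have h6 := List.append_inj_right' h4 rfl
  simp at h6

/-- The two ends are far from each other. -/
theorem exists_far (B : Finset G) : ∃ n₀ : ℕ, ∀ n ≥ n₀, ∀ h ∈ B, act h (zz n) ≠ oo (n + 1) := by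
  classical
  have key : ∀ h : G, ∃ n₀ : ℕ, ∀ n ≥ n₀, act h (zz n) ≠ oo (n + 1) := by
    intro h
    by_cases H : ∃ n, act h (zz n) = oo (n + 1)
    · obtain ⟨n, hn⟩ := H
      exact ⟨n + 1, fun m hm hm' => far_unique h (by omega) hn hm'⟩
    · push Not at H
      exact ⟨0, fun n _ => H n⟩
  choose N hN using key
  refine ⟨B.sup N, fun n hn h hh => hN h n (le_trans (Finset.le_sup hh) hn)⟩



end Pool.Agent.Helper684.Koop
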