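import Pool.Agent.Helper684.Koop.Words
import Pool.Agent.Helper684.Koop.Near

/-!
Inserted elements and projections. (Contributed by helper814.)
-/

open MeasureTheory ContinuousLinearMap

namespace Pool.Agent.Helper684.Koop

variable {S : Bool → (L2 →L[ℂ] L2)}

theorem rho_ins_one (hS : Cuntz S) (x : Bool) (m : Equiv.Perm Bd) (hm : m ∈ G)
    (hi : ins x m ∈ G) :
    1 - rho ⟨ins x m, hi⟩ = S x * (1 - rho ⟨m, hm⟩) * adjoint (S x) := by
  have h1 : rho ⟨ins x m, hi⟩ * S x = S x * rho ⟨m, hm⟩ :=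
    hS.inter _ _ x x (fun w => ins_same x m w)
  have h2 : ∀ y, y ≠ x → rho ⟨ins x m, hi⟩ * S y = S y := by
    intro y hy
    have := hS.inter ⟨ins x m, hi⟩ 1 y y (fun w => ins_other hy m w)
    rwa [map_one, mul_one] at this
  have h3 : S x * adjoint (S x) + S (!x) * adjoint (S (!x)) = 1 := by
    cases x
    · exact hS.compl
    · rw [add_comm]; exact hS.compl
  have h4 : rho ⟨ins x m, hi⟩ =
      S x * rho ⟨m, hm⟩ * adjoint (S x) + S (!x) * adjoint (S (!x)) := by
    calc rho ⟨ins x m, hi⟩ =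
        rho ⟨ins x m, hi⟩ * (S x * adjoint (S x) + S (!x) * adjoint (S (!x))) := by
          rw [h3, mul_one]
      _ = _ := by rw [mul_add, ← mul_assoc, ← mul_assoc, h1, h2 (!x) (by cases x <;> simp)]
  have h5 : (1 : L2 →L[ℂ] L2) - rho ⟨ins x m, hi⟩ =
      (S x * adjoint (S x) + S (!x) * adjoint (S (!x))) -
      (S x * rho ⟨m, hm⟩ * adjoint (S x) + S (!x) * adjoint (S (!x))) := by
    rw [h3, ← h4]
  rw [h5]
  simp only [mul_sub, sub_mul, mul_one]
  abel

/-- Inserted elements in the Koopman representation. -/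
theorem rho_insV (hS : Cuntz S) (v : List Bool) (k : Equiv.Perm Bd) (hk : k ∈ K) :
    1 - rho ⟨insV v k, K_le (insV_mem v hk)⟩ =
      Sw S v * (1 - rho ⟨k, K_le hk⟩) * adjoint (Sw S v) := by
  induction v with
  | nil =>
    rw [Sw_nil, adjoint_one', one_mul, mul_one]
    rfl
  | cons x v ih =>
    rw [Sw_cons, adjoint_mul]
    have h := rho_ins_one hS x (insV v k) (K_le (insV_mem v hk)) (K_le (insV_mem (x :: v) hk))
    calc 1 - rho ⟨insV (x :: v) k, K_le (insV_mem (x :: v) hk)⟩ =
        S x * (1 - rho ⟨insV v k, K_le (insV_mem v hk)⟩) * adjoint (S x) := h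
      _ = _ := by rw [ih]; simp only [mul_assoc]

theorem Sw_oo (n : ℕ) : Sw S (oo n) = S true ^ n := by
  induction n with
  | zero => rfl
  | succ n ih =>
    have : oo (n + 1) = true :: oo n := rfl
    rw [this, Sw_cons, ih, pow_succ']

theorem adjoint_pow' (A : L2 →L[ℂ] L2) (n : ℕ) : adjoint (A ^ n) = adjoint A ^ n := by
  induction n with
  | zero => rw [pow_zero, pow_zero, adjoint_one']
  | succ n ih => rw [pow_succ, adjoint_mul, ih, pow_succ']

/-- Strong convergence near the end `1^∞`. -/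
theorem tendsto_end (hS : Cuntz S) (h : G) (f : L2) :
    Filter.Tendsto (fun n : ℕ => ‖Pw S (act h (oo n)) f‖) Filter.atTop (nhds 0) := by
  refine (hS.tend (rho h⁻¹ f)).congr (fun n => ?_)
  have h1 : Pw S (act h (oo n)) = rho h * Pw S (oo n) * rho h⁻¹ := by
    rw [rho_mul_Pw hS, mul_assoc, ← map_mul, mul_inv_cancel, map_one, mul_one]
  have h2 : Pw S (act h (oo n)) f = rho h (Sw S (oo n) (adjoint (Sw S (oo n)) (rho h⁻¹ f))) := by
    rw [h1]; rfl
  have h3 : ∀ g : L2, ‖Sw S (oo n) g‖ = ‖g‖ :=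
    (norm_map_iff_adjoint_comp_self _).2 (Sw_iso hS (oo n))
  rw [h2, rho_norm, h3, Sw_oo, adjoint_pow']

theorem Pw_cons (x : Bool) (v : List Bool) :
    Pw S (x :: v) = S x * Pw S v * adjoint (S x) := by
  unfold Pw
  rw [Sw_cons, adjoint_mul]
  simp only [mul_assoc]

theorem PW_lev (hS : Cuntz S) (n : ℕ) : PW S (lev n) = 1 := by
  induction n with
  | zero =>
    simp [PW, lev, Pw, adjoint_one']
  | succ n ih =>
    have hd : Disjoint ((lev n).image (List.cons false)) ((lev n).image (List.cons true)) := by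
      rw [Finset.disjoint_left]
      intro u h1 h2
      obtain ⟨a, -, rfl⟩ := Finset.mem_image.1 h1
      obtain ⟨b, -, hb⟩ := Finset.mem_image.1 h2
      simp at hb
    have hsum : ∀ x : Bool, ∑ v ∈ (lev n).image (List.cons x), Pw S v =
        S x * PW S (lev n) * adjoint (S x) := by
      intro x
      rw [Finset.sum_image (by intro a _ b _ h; exact List.cons_injective h), PW, Finset.mul_sum,
        Finset.sum_mul]
      exact Finset.sum_congr rfl (fun v _ => Pw_cons x v)
    have h1 : PW S (lev (n + 1)) =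
        ∑ v ∈ (lev n).image (List.cons false), Pw S v +
        ∑ v ∈ (lev n).image (List.cons true), Pw S v := by
      rw [PW, lev, Finset.sum_union hd]
    rw [h1, hsum, hsum, ih, mul_one, mul_one, hS.compl]



end Pool.Agent.Helper684.Koop
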