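import Pool.Agent.Helper684.Koop.Rep

/-!
From scalar coefficients to vector coefficients. (Contributed by helper356.)
-/

open MeasureTheory ContinuousLinearMap

namespace Pool.Agent.Helper684.Koop

variable {S : Bool → (L2 →L[ℂ] L2)}

theorem v868_norm (hS : Cuntz S) (v : List Bool) (x : L2) : ‖Sw S v x‖ = ‖x‖ :=
  (norm_map_iff_adjoint_comp_self (Sw S v)).2 (Sw_iso hS v) x

theorem v868_orth (hS : Cuntz S) {u v : List Bool} (hl : u.length = v.length) (h : u ≠ v)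
    (x y : L2) : inner ℂ (Sw S u x) (Sw S v y) = 0 := by
  rw [← adjoint_inner_right]
  have h1 : adjoint (Sw S u) (Sw S v y) = (adjoint (Sw S u) * Sw S v) y := rfl
  rw [h1, Sw_orth hS u v hl h, zero_apply, inner_zero_right]

theorem v868_sum (hS : Cuntz S) {n : ℕ} {W : Finset (List Bool)} (hW : W ⊆ lev n)
    (x : List Bool → L2) : ‖∑ v ∈ W, Sw S v (x v)‖ ^ 2 = ∑ v ∈ W, ‖x v‖ ^ 2 := by
  classical
  induction W using Finset.induction_on with
  | empty => simp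
  | insert v W hv ih =>
    rw [Finset.sum_insert hv, Finset.sum_insert hv, ← ih ((Finset.subset_insert _ _).trans hW),
      ← v868_norm hS v (x v), norm_add_sq (𝕜 := ℂ)]
    have h0 : inner ℂ (Sw S v (x v)) (∑ w ∈ W, Sw S w (x w)) = 0 := by
      rw [inner_sum]
      refine Finset.sum_eq_zero fun w hw => v868_orth hS ?_ ?_ _ _
      · rw [mem_lev.1 (hW (Finset.mem_insert_self v W)),
          mem_lev.1 (hW (Finset.mem_insert_of_mem hw))]
      · rintro rfl
        exact hv hw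
    rw [h0]
    simp

theorem PW_norm_sq (hS : Cuntz S) {n : ℕ} {W : Finset (List Bool)} (hW : W ⊆ lev n) (f : L2) :
    ‖PW S W f‖ ^ 2 = ∑ v ∈ W, ‖adjoint (Sw S v) f‖ ^ 2 := by
  rw [← v868_sum hS hW]
  congr 2
  simp only [PW, Pw, sum_apply]
  rfl

theorem v868_T (hS : Cuntz S) {F : Finset G} {c : G → ℂ} {n : ℕ}
    {W : Finset (List Bool)} (hW : W ⊆ lev n) (hgood : ∀ v ∈ W, ∀ g ∈ F, sec g v = 1)
    (x : List Bool → L2) :
    (∑ g ∈ F, c g • rho g) (∑ v ∈ W, Sw S v (x v)) =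
      ∑ u ∈ lev n, Sw S u (∑ v ∈ W, (∑ g ∈ F with act g v = u, c g) • x v) := by
  classical
  have h1 : ∀ g ∈ F, ∀ v ∈ W, rho g (Sw S v (x v)) = Sw S (act g v) (x v) := by
    intro g hg v hv
    have : rho g (Sw S v (x v)) = (rho g * Sw S v) (x v) := rfl
    rw [this, rho_mul_Sw hS, hgood v hv g hg, map_one, mul_one]
  calc (∑ g ∈ F, c g • rho g) (∑ v ∈ W, Sw S v (x v))
      = ∑ g ∈ F, ∑ v ∈ W, c g • Sw S (act g v) (x v) := by
        rw [sum_apply]
        refine Finset.sum_congr rfl fun g hg => ?_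
        rw [smul_apply, map_sum, Finset.smul_sum]
        exact Finset.sum_congr rfl fun v hv => by rw [h1 g hg v hv]
    _ = ∑ v ∈ W, ∑ g ∈ F, c g • Sw S (act g v) (x v) := Finset.sum_comm
    _ = ∑ v ∈ W, ∑ u ∈ lev n, ∑ g ∈ F with act g v = u, c g • Sw S (act g v) (x v) := by
        refine Finset.sum_congr rfl fun v hv => ?_
        rw [Finset.sum_fiberwise_of_maps_to]
        intro g _
        rw [mem_lev, act_length]
        exact mem_lev.1 (hW hv)
    _ = ∑ u ∈ lev n, ∑ v ∈ W, ∑ g ∈ F with act g v = u, c g • Sw S (act g v) (x v) :=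
        Finset.sum_comm
    _ = _ := by
        refine Finset.sum_congr rfl fun u _ => ?_
        rw [map_sum]
        refine Finset.sum_congr rfl fun v _ => ?_
        rw [map_smul, Finset.sum_smul]
        refine Finset.sum_congr rfl fun g hg => ?_
        rw [(Finset.mem_filter.1 hg).2]

theorem v868_scalar (hS : Cuntz S) {F : Finset G} {c : G → ℂ} {C : ℝ} {n : ℕ}
    {W : Finset (List Bool)} (hW : W ⊆ lev n) (hgood : ∀ v ∈ W, ∀ g ∈ F, sec g v = 1)
    (H : ∀ η : List Bool → ℂ, ‖(∑ g ∈ F, c g • rho g) * ∑ v ∈ W, η v • Sw S v‖ ^ 2 ≤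
      C ^ 2 * ∑ v ∈ W, ‖η v‖ ^ 2) (e : L2) (he : ‖e‖ = 1) (η : List Bool → ℂ) :
    ∑ u ∈ lev n, ‖∑ v ∈ W, (∑ g ∈ F with act g v = u, c g) * η v‖ ^ 2 ≤
      C ^ 2 * ∑ v ∈ W, ‖η v‖ ^ 2 := by
  refine le_trans ?_ (H η)
  have h1 : ‖((∑ g ∈ F, c g • rho g) * ∑ v ∈ W, η v • Sw S v) e‖ ^ 2 ≤
      ‖(∑ g ∈ F, c g • rho g) * ∑ v ∈ W, η v • Sw S v‖ ^ 2 := by
    have := le_opNorm ((∑ g ∈ F, c g • rho g) * ∑ v ∈ W, η v • Sw S v) e
    rw [he, mul_one] at this
    exact pow_le_pow_left₀ (norm_nonneg _) this 2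
  refine le_trans (le_of_eq ?_) h1
  have h2 : ((∑ g ∈ F, c g • rho g) * ∑ v ∈ W, η v • Sw S v) e =
      (∑ g ∈ F, c g • rho g) (∑ v ∈ W, Sw S v (η v • e)) := by
    show (∑ g ∈ F, c g • rho g) ((∑ v ∈ W, η v • Sw S v) e) = _
    congr 1
    rw [sum_apply]
    exact Finset.sum_congr rfl fun v _ => by rw [map_smul, smul_apply]
  rw [h2, v868_T hS hW hgood, v868_sum hS (le_refl (lev n))]
  refine Finset.sum_congr rfl fun u _ => ?_
  have h3 : ∑ v ∈ W, (∑ g ∈ F with act g v = u, c g) • η v • e =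
      (∑ v ∈ W, (∑ g ∈ F with act g v = u, c g) * η v) • e := by
    rw [Finset.sum_smul]
    exact Finset.sum_congr rfl fun v _ => by rw [smul_smul]
  rw [h3, norm_smul, he, mul_one]

/-- Passing from scalar coefficients to vector coefficients. -/
theorem vector_bound (hS : Cuntz S) {F : Finset G} {c : G → ℂ} {C : ℝ} (hC : 0 ≤ C) {n : ℕ}
    {W : Finset (List Bool)} (hW : W ⊆ lev n) (hgood : ∀ v ∈ W, ∀ g ∈ F, sec g v = 1)
    (H : ∀ η : List Bool → ℂ, ‖(∑ g ∈ F, c g • rho g) * ∑ v ∈ W, η v • Sw S v‖ ^ 2 ≤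
      C ^ 2 * ∑ v ∈ W, ‖η v‖ ^ 2) (f : L2) :
    ‖(∑ g ∈ F, c g • rho g) (PW S W f)‖ ≤ C * ‖PW S W f‖ := by
  classical
  set x : List Bool → L2 := fun v => adjoint (Sw S v) f with hx
  have hPW : PW S W f = ∑ v ∈ W, Sw S v (x v) := by
    simp only [PW, Pw, sum_apply]
    rfl
  have hkey : ‖(∑ g ∈ F, c g • rho g) (PW S W f)‖ ^ 2 ≤ (C * ‖PW S W f‖) ^ 2 := by
    rw [mul_pow, hPW, v868_T hS hW hgood, v868_sum hS (le_refl (lev n)), v868_sum hS hW]
    let M : Submodule ℂ L2 := Submodule.span ℂ ((W.image x : Finset L2) : Set L2)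
    have : FiniteDimensional ℂ M := FiniteDimensional.span_finset ℂ _
    let b := stdOrthonormalBasis ℂ M
    have hxM : ∀ v ∈ W, x v ∈ M := fun v hv =>
      Submodule.subset_span (Finset.mem_coe.2 (Finset.mem_image_of_mem x hv))
    have hnorm : ∀ y ∈ M, ‖y‖ ^ 2 = ∑ i, ‖inner ℂ ((b i : M) : L2) y‖ ^ 2 := by
      intro y hy
      have := b.sum_sq_norm_inner_right ⟨y, hy⟩
      rw [show ‖y‖ = ‖(⟨y, hy⟩ : M)‖ from rfl, ← this]
      rfl
    have hl : ∀ u ∈ lev n, ‖∑ v ∈ W, (∑ g ∈ F with act g v = u, c g) • x v‖ ^ 2 =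
        ∑ i, ‖∑ v ∈ W, (∑ g ∈ F with act g v = u, c g) * inner ℂ ((b i : M) : L2) (x v)‖ ^ 2 := by
      intro u _
      rw [hnorm _ (M.sum_mem fun v hv => M.smul_mem _ (hxM v hv))]
      refine Finset.sum_congr rfl fun i _ => ?_
      rw [inner_sum]
      congr 2
      exact Finset.sum_congr rfl fun v _ => by rw [inner_smul_right]
    rw [Finset.sum_congr rfl hl, Finset.sum_comm,
      Finset.sum_congr rfl fun v hv => hnorm _ (hxM v hv), Finset.sum_comm (s := W), Finset.mul_sum]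
    refine Finset.sum_le_sum fun i _ => ?_
    refine v868_scalar hS hW hgood H ((b i : M) : L2) ?_ _
    have := b.orthonormal.1 i
    exact this
  exact le_of_sq_le_sq hkey (mul_nonneg hC (norm_nonneg _))



end Pool.Agent.Helper684.Koop
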