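import Pool.Agent.Helper684.Koop.L2
import Pool.Agent.Helper684.Koop.Grp

/-!
Operators attached to finite words.
-/

open MeasureTheory ContinuousLinearMap

namespace Pool.Agent.Helper684.Koop

/-- The relations between the two isometries and the Koopman representation. -/
structure Cuntz (S : Bool → (L2 →L[ℂ] L2)) : Prop where
  iso : ∀ x, adjoint (S x) * S x = 1
  orth : ∀ x y, x ≠ y → adjoint (S x) * S y = 0
  compl : S false * adjoint (S false) + S true * adjoint (S true) = 1
  inter : ∀ (g h : G) (x y : Bool), (∀ w, (g : Equiv.Perm Bd) (cons x w) =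
    cons y ((h : Equiv.Perm Bd) w)) → rho g * S x = S y * rho h
  tend : ∀ f : L2, Filter.Tendsto (fun n : ℕ => ‖(adjoint (S true) ^ n) f‖) Filter.atTop (nhds 0)

theorem exists_cuntz : ∃ S : Bool → (L2 →L[ℂ] L2), Cuntz S := by
  obtain ⟨S, hS, hiso, horth⟩ := exists_S
  exact ⟨S, hiso, horth, S_complete S hS hiso horth, S_intertwine S hS,
    S_tendsto S hS hiso horth⟩

theorem adjoint_mul (A B : L2 →L[ℂ] L2) : adjoint (A * B) = adjoint B * adjoint A :=
  adjoint_comp A B

theorem adjoint_one' : adjoint (1 : L2 →L[ℂ] L2) = 1 := by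
  rw [← star_eq_adjoint, star_one]

theorem rho_adjoint (g : G) : adjoint (rho g) = rho g⁻¹ := by
  have hiso : ∀ f : L2, ‖rho g f‖ = ‖f‖ := fun f =>
    LinearIsometry.norm_map (Lp.compMeasurePreservingₗᵢ ℂ _ (measurePreserving_G g⁻¹)) f
  have h1 : adjoint (rho g) * rho g = 1 := (norm_map_iff_adjoint_comp_self _).1 hiso
  calc adjoint (rho g) = adjoint (rho g) * (rho g * rho g⁻¹) := by
        rw [← map_mul, mul_inv_cancel, map_one, mul_one]
    _ = rho g⁻¹ := by rw [← mul_assoc, h1, one_mul]

theorem rho_norm (g : G) (f : L2) : ‖rho g f‖ = ‖f‖ :=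
  LinearIsometry.norm_map (Lp.compMeasurePreservingₗᵢ ℂ _ (measurePreserving_G g⁻¹)) f

/-- The isometry of a finite word. -/
noncomputable def Sw (S : Bool → (L2 →L[ℂ] L2)) : List Bool → (L2 →L[ℂ] L2)
  | [] => 1
  | x :: v => S x * Sw S v

section

variable {S : Bool → (L2 →L[ℂ] L2)}

@[simp] theorem Sw_nil : Sw S [] = 1 := rfl
theorem Sw_cons (x : Bool) (v : List Bool) : Sw S (x :: v) = S x * Sw S v := rfl

theorem Sw_append (u v : List Bool) : Sw S (u ++ v) = Sw S u * Sw S v := by
  induction u with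
  | nil => simp
  | cons x u ih => rw [List.cons_append, Sw_cons, Sw_cons, ih, mul_assoc]

theorem Sw_single (x : Bool) : Sw S [x] = S x := by rw [Sw_cons, Sw_nil, mul_one]

theorem Sw_iso (hS : Cuntz S) (v : List Bool) : adjoint (Sw S v) * Sw S v = 1 := by
  induction v with
  | nil => rw [Sw_nil, adjoint_one', one_mul]
  | cons x v ih =>
    rw [Sw_cons, adjoint_mul, mul_assoc, ← mul_assoc (adjoint (S x)), hS.iso, one_mul, ih]

theorem Sw_orth (hS : Cuntz S) : ∀ (u v : List Bool), u.length = v.length → u ≠ v →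
    adjoint (Sw S u) * Sw S v = 0
  | [], [], _, h => absurd rfl h
  | x :: u, y :: v, hl, h => by
    rw [Sw_cons, Sw_cons, adjoint_mul, mul_assoc, ← mul_assoc (adjoint (S x))]
    by_cases hxy : x = y
    · subst hxy
      rw [hS.iso, one_mul]
      exact Sw_orth hS u v (by simpa using hl) (fun e => h (by rw [e]))
    · rw [hS.orth x y hxy, zero_mul, mul_zero]

theorem rho_mul_Sw (hS : Cuntz S) (v : List Bool) : ∀ g : G,
    rho g * Sw S v = Sw S (act g v) * rho (sec g v) := by
  induction v with
  | nil => intro g; simp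
  | cons x v ih =>
    intro g
    obtain ⟨y, k, hk, e⟩ := exists_act_one g.2 x
    have h1 : act g (x :: v) = y :: act ⟨k, hk⟩ v ∧ sec g (x :: v) = sec ⟨k, hk⟩ v := by
      apply act_unique (by simp)
      intro w
      rw [app_cons, e, app_cons]
      congr 1
      exact act_spec ⟨k, hk⟩ v w
    rw [h1.1, h1.2, Sw_cons, Sw_cons, ← mul_assoc, hS.inter g ⟨k, hk⟩ x y e, mul_assoc, ih,
      mul_assoc]

theorem adj_Sw_mul_rho (hS : Cuntz S) (v : List Bool) (g : G) :
    adjoint (Sw S v) * rho g = rho (sec g⁻¹ v)⁻¹ * adjoint (Sw S (act g⁻¹ v)) := by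
  have h := congrArg adjoint (rho_mul_Sw hS v g⁻¹)
  rw [adjoint_mul, adjoint_mul, rho_adjoint, rho_adjoint, inv_inv] at h
  exact h

/-- The projection attached to a finite word. -/
noncomputable def Pw (S : Bool → (L2 →L[ℂ] L2)) (v : List Bool) : L2 →L[ℂ] L2 :=
  Sw S v * adjoint (Sw S v)

theorem Pw_children (hS : Cuntz S) (v : List Bool) :
    Pw S v = Pw S (v ++ [false]) + Pw S (v ++ [true]) := by
  unfold Pw
  rw [Sw_append, Sw_append, Sw_single, Sw_single, adjoint_mul, adjoint_mul]
  calc Sw S v * adjoint (Sw S v) = Sw S v * (S false * adjoint (S false) +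
      S true * adjoint (S true)) * adjoint (Sw S v) := by rw [hS.compl, mul_one]
    _ = _ := by simp only [mul_add, add_mul, mul_assoc]

theorem rho_mul_Pw (hS : Cuntz S) (g : G) (v : List Bool) :
    rho g * Pw S v = Pw S (act g v) * rho g := by
  unfold Pw
  rw [← mul_assoc, rho_mul_Sw hS, mul_assoc (Sw S (act g v)), mul_assoc (Sw S (act g v)),
    adj_Sw_mul_rho hS, act_inv_act, sec_inv, act_inv_act, inv_inv]

end

/-- All words of length `n`. -/
def lev : ℕ → Finset (List Bool)
  | 0 => {[]}
  | n + 1 => (lev n).image (List.cons false) ∪ (lev n).image (List.cons true)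

theorem mem_lev {n : ℕ} {v : List Bool} : v ∈ lev n ↔ v.length = n := by
  induction n generalizing v with
  | zero => simp [lev]
  | succ n ih =>
    simp only [lev, Finset.mem_union, Finset.mem_image, ih]
    constructor
    · rintro (⟨u, hu, rfl⟩ | ⟨u, hu, rfl⟩) <;> simp [hu]
    · intro h
      match v, h with
      | x :: u, h =>
        rcases x with _ | _
        · exact Or.inl ⟨u, by simpa using h, rfl⟩
        · exact Or.inr ⟨u, by simpa using h, rfl⟩

/-- The projection attached to a finite set of words. -/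
noncomputable def PW (S : Bool → (L2 →L[ℂ] L2)) (W : Finset (List Bool)) : L2 →L[ℂ] L2 :=
  ∑ v ∈ W, Pw S v

end Pool.Agent.Helper684.Koop
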